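import Pool.Agent.N879.QM.Op
import Pool.Agent.N879.QM.Stm2

set_option autoImplicit false

/-! helper819, project QM: `L` minus a short polynomial as an operator, small `A`, with more precise exponents
(after task OPB of helper832, `Pool.Agent.N879.QM.Opb`). -/

namespace Run7.h819.QM

open Complex Filter Topology MeasureTheory Set
open Pool.Agent.N879.QM

noncomputable section

open OPaux

theorem opN (h1 : S_P2) (h2 : S_MID) (h3 : S_BIGP) (h4 : S_AFS) (h5 : S_CTS) :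
    ∀ ε : ℝ, 0 < ε → ∃ C : ℝ, 0 < C ∧ ∀ (s : ℤ) (X A d : ℝ) (N : ℕ) (c : ℕ → ℂ), s = 1 ∨ s = -1 →
      2 ≤ A → A ≤ X → 0 ≤ d → d ≤ 1 → 1 ≤ N →
      ∫ α in (-A)..A, ‖∑ q ∈ Q s X, c q * (LL s q (pt α) - PN s q N α)‖ ^ 2 ≤
        C * X ^ ε * A * (X / √N + X * A ^ (-(1 / 3) : ℝ) + X ^ (1 + d) * A ^ (-1 : ℝ) +
          X ^ ((1 + d) * (2 / 3)) + X ^ (1 - d)) * ∑ q ∈ Q s X, ‖c q‖ ^ 2 := by
  intro ε hε
  obtain ⟨C1, hC1, h1⟩ := h1 (ε / 4) (by positivity)
  obtain ⟨C2, hC2, h2⟩ := h2 (ε / 8) (by positivity)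
  obtain ⟨C4, hC4, hB4⟩ := h3 (ε / 2) (by positivity)
  obtain ⟨C3, hC3, h3⟩ := h4
  replace h4 := h5
  refine ⟨(C1 + 4 * C2 + 2 * C4 + 8 * C3 ^ 2) * (3 + 9 / (ε / 4)) ^ 2, by positivity, ?_⟩
  intro s X A d N c hs hA hAX hd0 hd1 hN
  have hA0 : 0 < A := by linarith
  have hA1 : 1 ≤ A := by linarith
  have hX : 1 ≤ X := by linarith
  have hX2 : 2 ≤ X := by linarith
  have hX0 : 0 < X := by linarith
  have hN0 : (0 : ℝ) < N := by exact_mod_cast hN
  obtain ⟨J, hJ1, hJ2⟩ := pieces (show 0 < ε / 4 by positivity) hX2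
  set S := ∑ q ∈ Q s X, ‖c q‖ ^ 2 with hS
  have hS0 : 0 ≤ S := Finset.sum_nonneg fun _ _ => by positivity
  have hR3 : 1 ≤ X ^ (1 - d) := Real.one_le_rpow hX (by linarith)
  set R : ℝ := X / √N + X * A ^ (-(1 / 3) : ℝ) + X ^ (1 + d) * A ^ (-1 : ℝ) +
    X ^ ((1 + d) * (2 / 3)) + X ^ (1 - d) with hR
  have hRa : 0 ≤ X / √N := by positivity
  have hRb : 0 ≤ X * A ^ (-(1 / 3) : ℝ) := by positivity
  have hRc : 0 ≤ X ^ (1 + d) * A ^ (-1 : ℝ) := by positivity
  have hRd : 0 ≤ X ^ ((1 + d) * (2 / 3)) := by positivity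
  have hR1 : 1 ≤ R := by linarith
  have hR0 : 0 < R := by linarith
  set B : ℝ := (C1 + 4 * C2 + 2 * C4 + 8 * C3 ^ 2) * (X ^ (ε / 2) * A) * R * S with hB
  have hXe : 1 ≤ X ^ (ε / 2) := Real.one_le_rpow hX (by positivity)
  have hAA : A ≤ X ^ (ε / 2) * A := le_mul_of_one_le_left hA0.le hXe
  -- the pieces
  set T : ℕ → ℝ → ℂ := fun i α => ∑ q ∈ Q s X, c q * SK s q (N * 2 ^ i) α with hT
  set G : ℝ → ℂ := fun α => ∑ q ∈ Q s X, c q * (LL s q (pt α) - PN s q (N * 2 ^ J) α) with hG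
  have hTc : ∀ i, Continuous (T i) := fun i =>
    continuous_finsetSum _ fun q _ => continuous_const.mul (SK_cont s q _)
  have hGc : Continuous G :=
    continuous_finsetSum _ fun q hq => continuous_const.mul ((h4 s q (Q_is hq).1).sub (PN_cont s q _))
  have hTb : ∀ i, ∫ α in (-A)..A, ‖T i α‖ ^ 2 ≤ B := by
    intro i
    have hK1 : 1 ≤ N * 2 ^ i := Nat.mul_pos hN (by positivity)
    have hC3' : 0 ≤ C3 ^ 2 := by positivity
    rcases le_or_gt ((N * 2 ^ i : ℕ) : ℝ) A with hle | hle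
    · have := h1 s X A (N * 2 ^ i) c hs hX hA hK1 hle
      refine this.trans ?_
      have e1 : (X * A) ^ (ε / 4) ≤ X ^ (ε / 2) := by
        calc (X * A) ^ (ε / 4) ≤ (X * X) ^ (ε / 4) := by
              apply Real.rpow_le_rpow (by positivity) _ (by positivity)
              gcongr
          _ = X ^ (ε / 2) := by
              rw [← sq, ← Real.rpow_natCast X 2, ← Real.rpow_mul hX0.le]; congr 1; push_cast; ring
      have e2 : X / √((N * 2 ^ i : ℕ) : ℝ) + 1 ≤ R := by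
        have : X / √((N * 2 ^ i : ℕ) : ℝ) ≤ X / √N := by
          apply div_le_div_of_nonneg_left hX0.le (Real.sqrt_pos.2 hN0)
          apply Real.sqrt_le_sqrt
          push_cast
          exact le_mul_of_one_le_right hN0.le (one_le_pow₀ (by norm_num))
        linarith
      calc C1 * (X * A) ^ (ε / 4) * A * (X / √((N * 2 ^ i : ℕ) : ℝ) + 1) * S
          ≤ C1 * X ^ (ε / 2) * A * R * S := by gcongr
        _ = C1 * (X ^ (ε / 2) * A) * R * S := by ring
        _ ≤ B := by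
            rw [hB]
            gcongr
            linarith
    · have hK0 : (0 : ℝ) < ((N * 2 ^ i : ℕ) : ℝ) := by linarith
      rcases le_or_gt ((N * 2 ^ i : ℕ) : ℝ) (X ^ (1 + d)) with hle2 | hle2
      · have := h2 s X A (N * 2 ^ i) c hs hX hA hle.le
        refine this.trans ?_
        have hXd : X ≤ X ^ (1 + d) := by
          calc X = X ^ (1 : ℝ) := (Real.rpow_one X).symm
            _ ≤ _ := Real.rpow_le_rpow_of_exponent_le hX (by linarith)
        have hKX : ((N * 2 ^ i : ℕ) : ℝ) ≤ X ^ (2 : ℝ) :=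
          hle2.trans (Real.rpow_le_rpow_of_exponent_le hX (by linarith))
        have e1 : (X * ((N * 2 ^ i : ℕ) : ℝ)) ^ (ε / 8) ≤ X ^ (ε / 2) := by
          calc (X * ((N * 2 ^ i : ℕ) : ℝ)) ^ (ε / 8) ≤ (X * X ^ (2 : ℝ)) ^ (ε / 8) := by
                apply Real.rpow_le_rpow (by positivity) _ (by positivity)
                gcongr
            _ = X ^ (3 * (ε / 8)) := by
                rw [show X * X ^ (2 : ℝ) = X ^ (3 : ℝ) by
                  rw [show (3 : ℝ) = 1 + 2 by norm_num, Real.rpow_add hX0, Real.rpow_one],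
                  ← Real.rpow_mul hX0.le]
            _ ≤ X ^ (ε / 2) := Real.rpow_le_rpow_of_exponent_le hX (by linarith)
        have e2 : A ^ (-1 : ℝ) ≤ A ^ (-(1 / 3) : ℝ) :=
          Real.rpow_le_rpow_of_exponent_le hA1 (by norm_num)
        have e3 : ((N * 2 ^ i : ℕ) : ℝ) ^ (-(1 / 3) : ℝ) ≤ A ^ (-(1 / 3) : ℝ) :=
          Real.rpow_le_rpow_of_nonpos hA0 hle.le (by norm_num)
        have e4 : (X + ((N * 2 ^ i : ℕ) : ℝ)) * (A ^ (-1 : ℝ) + ((N * 2 ^ i : ℕ) : ℝ) ^ (-(1 / 3) : ℝ)) ≤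
            2 * R := by
          obtain ⟨K, hK⟩ : ∃ K : ℝ, K = ((N * 2 ^ i : ℕ) : ℝ) := ⟨_, rfl⟩
          rw [← hK] at e3 hK0 hle2 ⊢
          have g1 : X * A ^ (-1 : ℝ) ≤ X * A ^ (-(1 / 3) : ℝ) := mul_le_mul_of_nonneg_left e2 hX0.le
          have g2 : X * K ^ (-(1 / 3) : ℝ) ≤ X * A ^ (-(1 / 3) : ℝ) := mul_le_mul_of_nonneg_left e3 hX0.le
          have g3 : K * A ^ (-1 : ℝ) ≤ X ^ (1 + d) * A ^ (-1 : ℝ) :=
            mul_le_mul_of_nonneg_right hle2 (by positivity)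
          have g4 : K * K ^ (-(1 / 3) : ℝ) ≤ X ^ ((1 + d) * (2 / 3)) := by
            calc K * K ^ (-(1 / 3) : ℝ) = K ^ (2 / 3 : ℝ) := by
                  nth_rewrite 1 [← Real.rpow_one K]
                  rw [← Real.rpow_add hK0]
                  norm_num
              _ ≤ (X ^ (1 + d)) ^ (2 / 3 : ℝ) := Real.rpow_le_rpow hK0.le hle2 (by norm_num)
              _ = X ^ ((1 + d) * (2 / 3)) := by rw [← Real.rpow_mul hX0.le]
          have g5 : (X + K) * (A ^ (-1 : ℝ) + K ^ (-(1 / 3) : ℝ)) =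
              X * A ^ (-1 : ℝ) + X * K ^ (-(1 / 3) : ℝ) + K * A ^ (-1 : ℝ) + K * K ^ (-(1 / 3) : ℝ) := by ring
          have g6 : 0 ≤ X ^ (1 - d) := by positivity
          rw [g5, hR]
          linarith
        calc C2 * (X * ((N * 2 ^ i : ℕ) : ℝ)) ^ (ε / 8) * A * (X + ((N * 2 ^ i : ℕ) : ℝ)) *
              (A ^ (-1 : ℝ) + ((N * 2 ^ i : ℕ) : ℝ) ^ (-(1 / 3) : ℝ)) * S
            = C2 * (X * ((N * 2 ^ i : ℕ) : ℝ)) ^ (ε / 8) * A * ((X + ((N * 2 ^ i : ℕ) : ℝ)) *
              (A ^ (-1 : ℝ) + ((N * 2 ^ i : ℕ) : ℝ) ^ (-(1 / 3) : ℝ))) * S := by ring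
          _ ≤ C2 * X ^ (ε / 2) * A * (2 * R) * S := by gcongr
          _ = 2 * C2 * (X ^ (ε / 2) * A) * R * S := by ring
          _ ≤ B := by
              rw [hB]
              gcongr
              linarith
      · have := hB4 s X A (N * 2 ^ i) c hs hX hA hle.le
        refine this.trans ?_
        have e1 : X ^ 2 / ((N * 2 ^ i : ℕ) : ℝ) ≤ X ^ (1 - d) := by
          rw [div_le_iff₀ hK0]
          calc X ^ 2 = X ^ (1 - d) * X ^ (1 + d) := by
                rw [← Real.rpow_add hX0, ← Real.rpow_natCast]; congr 1; push_cast; ring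
            _ ≤ _ := by gcongr
        calc C4 * X ^ (ε / 2) * A * (1 + X ^ 2 / ((N * 2 ^ i : ℕ) : ℝ)) * S
            ≤ C4 * X ^ (ε / 2) * A * (2 * X ^ (1 - d)) * S := by
              gcongr
              linarith
          _ = 2 * C4 * (X ^ (ε / 2) * A) * X ^ (1 - d) * S := by ring
          _ ≤ 2 * C4 * (X ^ (ε / 2) * A) * R * S := by
              gcongr
              linarith
          _ ≤ B := by
              rw [hB]
              gcongr
              linarith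
  have hGb : ∫ α in (-A)..A, ‖G α‖ ^ 2 ≤ B := by
    have hpt : ∀ α ∈ Icc (-A) A, ‖G α‖ ^ 2 ≤ 4 * C3 ^ 2 * S := by
      intro α hα
      have hα' : |α| ≤ A := abs_le.2 hα
      have hZ : X ^ 3 ≤ √((N * 2 ^ J : ℕ) : ℝ) := by
        apply Real.le_sqrt_of_sq_le
        push_cast
        calc (X ^ 3) ^ 2 = X ^ 6 := by ring
          _ ≤ 2 ^ J := hJ1
          _ ≤ N * 2 ^ J := le_mul_of_one_le_left (by positivity) (by exact_mod_cast hN)
      have hq : ∀ q ∈ Q s X, ‖LL s q (pt α) - PN s q (N * 2 ^ J) α‖ ≤ 2 * C3 / X := by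
        intro q hq
        have hqA : (q : ℝ) ≤ X := by linarith [(Q_is hq).2]
        refine (h3 s q (N * 2 ^ J) α (Q_is hq).1 (Nat.mul_pos hN (by positivity))).trans ?_
        rw [div_le_div_iff₀ (lt_of_lt_of_le (by positivity) hZ) hX0]
        calc C3 * q * (1 + |α|) * X ≤ C3 * X * (2 * X) * X := by
              gcongr
              linarith
          _ = 2 * C3 * X ^ 3 := by ring
          _ ≤ 2 * C3 * √((N * 2 ^ J : ℕ) : ℝ) := by gcongr
      have hcs : ‖G α‖ ^ 2 ≤ S * ∑ q ∈ Q s X, ‖LL s q (pt α) - PN s q (N * 2 ^ J) α‖ ^ 2 := by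
        have h5 : ‖G α‖ ≤ ∑ q ∈ Q s X, ‖c q‖ * ‖LL s q (pt α) - PN s q (N * 2 ^ J) α‖ := by
          refine (norm_sum_le _ _).trans (le_of_eq ?_)
          exact Finset.sum_congr rfl fun q _ => norm_mul _ _
        refine (pow_le_pow_left₀ (norm_nonneg _) h5 2).trans ?_
        exact Finset.sum_mul_sq_le_sq_mul_sq _ _ _
      refine hcs.trans ?_
      have h6 : ∑ q ∈ Q s X, ‖LL s q (pt α) - PN s q (N * 2 ^ J) α‖ ^ 2 ≤ X * (2 * C3 / X) ^ 2 := by
        calc ∑ q ∈ Q s X, ‖LL s q (pt α) - PN s q (N * 2 ^ J) α‖ ^ 2 ≤ ∑ _q ∈ Q s X, (2 * C3 / X) ^ 2 :=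
              Finset.sum_le_sum fun q hq' => pow_le_pow_left₀ (norm_nonneg _) (hq q hq') 2
          _ = ((Q s X).card : ℝ) * (2 * C3 / X) ^ 2 := by rw [Finset.sum_const, nsmul_eq_mul]
          _ ≤ X * (2 * C3 / X) ^ 2 := by gcongr; exact Q_card hX
      have h7 : X * (2 * C3 / X) ^ 2 ≤ 4 * C3 ^ 2 := by
        rw [div_pow, mul_div_assoc', div_le_iff₀ (by positivity)]
        have : X ≤ X ^ 2 := by nlinarith
        calc X * (2 * C3) ^ 2 = 4 * C3 ^ 2 * X := by ring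
          _ ≤ 4 * C3 ^ 2 * X ^ 2 := by gcongr
      calc S * ∑ q ∈ Q s X, ‖LL s q (pt α) - PN s q (N * 2 ^ J) α‖ ^ 2 ≤ S * (4 * C3 ^ 2) := by
            gcongr; exact h6.trans h7
        _ = _ := by ring
    have h8 : ∫ α in (-A)..A, ‖G α‖ ^ 2 ≤ ∫ _α in (-A)..A, 4 * C3 ^ 2 * S := by
      apply intervalIntegral.integral_mono_on (by linarith) ((hGc.norm.pow 2).intervalIntegrable _ _)
        (continuous_const.intervalIntegrable _ _) hpt
    refine h8.trans ?_
    rw [intervalIntegral.integral_const, smul_eq_mul]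
    calc (A - -A) * (4 * C3 ^ 2 * S) = 8 * C3 ^ 2 * A * 1 * S := by ring
      _ ≤ 8 * C3 ^ 2 * (X ^ (ε / 2) * A) * R * S := by gcongr
      _ ≤ B := by
          rw [hB]
          gcongr
          linarith
  -- the sum
  have hF : ∀ α : ℝ, ‖∑ q ∈ Q s X, c q * (LL s q (pt α) - PN s q N α)‖ ^ 2 ≤
      ((J : ℝ) + 1) * (‖G α‖ ^ 2 + ∑ i ∈ Finset.range J, ‖T i α‖ ^ 2) := by
    intro α
    have e : ∑ q ∈ Q s X, c q * (LL s q (pt α) - PN s q N α) = G α + ∑ i ∈ Finset.range J, T i α := by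
      simp only [hG, hT]
      rw [Finset.sum_comm, ← Finset.sum_add_distrib]
      refine Finset.sum_congr rfl fun q _ => ?_
      rw [PN_dyadic, ← Finset.mul_sum]
      ring
    rw [e]
    have h5 : ‖G α + ∑ i ∈ Finset.range J, T i α‖ ≤ ∑ i ∈ Finset.range (J + 1), (if i = J then ‖G α‖ else ‖T i α‖) := by
      rw [Finset.sum_range_succ, if_pos rfl]
      refine (norm_add_le _ _).trans ?_
      rw [add_comm]
      gcongr
      refine (norm_sum_le _ _).trans (le_of_eq ?_)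
      refine Finset.sum_congr rfl fun i hi => ?_
      rw [if_neg (by have := Finset.mem_range.1 hi; omega)]
    have h7 : (∑ i ∈ Finset.range (J + 1), (if i = J then ‖G α‖ else ‖T i α‖)) ^ 2 ≤
        ((Finset.range (J + 1)).card : ℝ) * ∑ i ∈ Finset.range (J + 1), (if i = J then ‖G α‖ else ‖T i α‖) ^ 2 :=
      sq_sum_le_card_mul_sum_sq
    refine (pow_le_pow_left₀ (norm_nonneg _) h5 2).trans (h7.trans ?_)
    rw [Finset.card_range, Finset.sum_range_succ, if_pos rfl]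
    push_cast
    apply mul_le_mul_of_nonneg_left _ (by positivity)
    rw [add_comm]
    gcongr with i hi
    rw [if_neg (by have := Finset.mem_range.1 hi; omega)]
  have hFc : Continuous fun α : ℝ => ‖∑ q ∈ Q s X, c q * (LL s q (pt α) - PN s q N α)‖ ^ 2 :=
    (continuous_finsetSum _ fun q hq => continuous_const.mul ((h4 s q (Q_is hq).1).sub (PN_cont s q _))).norm.pow 2
  have hRc : Continuous fun α : ℝ => ((J : ℝ) + 1) * (‖G α‖ ^ 2 + ∑ i ∈ Finset.range J, ‖T i α‖ ^ 2) :=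
    continuous_const.mul ((hGc.norm.pow 2).add (continuous_finsetSum _ fun i _ => (hTc i).norm.pow 2))
  have h9 : ∫ α in (-A)..A, ‖∑ q ∈ Q s X, c q * (LL s q (pt α) - PN s q N α)‖ ^ 2 ≤
      ((J : ℝ) + 1) * (B + ∑ _i ∈ Finset.range J, B) := by
    refine (intervalIntegral.integral_mono_on (by linarith) (hFc.intervalIntegrable _ _)
      (hRc.intervalIntegrable _ _) (fun α _ => hF α)).trans ?_
    have hGi : IntervalIntegrable (fun α => ‖G α‖ ^ 2) volume (-A) A := (hGc.norm.pow 2).intervalIntegrable _ _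
    have hTi : ∀ i, IntervalIntegrable (fun α => ‖T i α‖ ^ 2) volume (-A) A := fun i =>
      ((hTc i).norm.pow 2).intervalIntegrable _ _
    have hTs : IntervalIntegrable (fun α => ∑ i ∈ Finset.range J, ‖T i α‖ ^ 2) volume (-A) A :=
      (continuous_finsetSum (Finset.range J) fun i _ => (hTc i).norm.pow 2).intervalIntegrable _ _
    rw [intervalIntegral.integral_const_mul, intervalIntegral.integral_add hGi hTs,
      intervalIntegral.integral_finsetSum (fun i _ => hTi i)]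
    gcongr with i _
    exact hTb i
  refine h9.trans ?_
  rw [Finset.sum_const, Finset.card_range, nsmul_eq_mul]
  have hB0 : 0 ≤ B := by positivity
  have h10 : ((J : ℝ) + 1) * (B + J * B) ≤ ((3 + 9 / (ε / 4)) * X ^ (ε / 4)) ^ 2 * B := by
    calc ((J : ℝ) + 1) * (B + J * B) = ((J : ℝ) + 1) ^ 2 * B := by ring
      _ ≤ ((3 + 9 / (ε / 4)) * X ^ (ε / 4)) ^ 2 * B := by
          gcongr
          linarith
  refine h10.trans (le_of_eq ?_)
  have e5 : (X ^ (ε / 4)) ^ 2 * X ^ (ε / 2) = X ^ ε := by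
    rw [← Real.rpow_natCast, ← Real.rpow_mul hX0.le, ← Real.rpow_add hX0]
    congr 1; push_cast; ring
  rw [hB, mul_pow, ← e5]
  ring

end

end Run7.h819.QM
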