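import Pool.Agent.N879.QM.Tel

set_option autoImplicit false

/-!
helper819, project QM: replacement of the factors of a product, one at a time, with a bound for the second moment
that depends on the member of the family.
-/

namespace Run7.h819.QM

open Complex Filter Topology MeasureTheory Set
open scoped BigOperators ENNReal
open Pool.Agent.N879.QM Pool.Agent.N879.QM.Tel

noncomputable section

/-- integration of a weighted sum -/
lemma wsumW {X : Type} [MeasurableSpace X] (μ : Measure X) (D : Finset ℕ) (w C : ℕ → ℝ)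
    (h : ℕ → X → ℝ) {B : ℝ} (hB : 0 ≤ B) (hw : ∀ q ∈ D, 0 ≤ w q)
    (h0 : ∀ q ∈ D, ∀ x, 0 ≤ h q x) (hm : ∀ q, Measurable (h q)) (hC : ∀ q ∈ D, 0 ≤ C q)
    (hi : ∀ q ∈ D, ∫⁻ x, ENNReal.ofReal (h q x) ∂μ ≤ ENNReal.ofReal (C q)) :
    ∫⁻ x, ENNReal.ofReal (B * ∑ q ∈ D, w q * h q x) ∂μ ≤ ENNReal.ofReal (B * ∑ q ∈ D, w q * C q) := by
  have e1 : ∀ x, ENNReal.ofReal (B * ∑ q ∈ D, w q * h q x) =
      ∑ q ∈ D, ENNReal.ofReal (B * w q) * ENNReal.ofReal (h q x) := by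
    intro x
    rw [Finset.mul_sum, ENNReal.ofReal_sum_of_nonneg fun q hq =>
      mul_nonneg hB (mul_nonneg (hw q hq) (h0 q hq x))]
    refine Finset.sum_congr rfl fun q hq => ?_
    rw [← ENNReal.ofReal_mul (mul_nonneg hB (hw q hq)), mul_assoc]
  simp_rw [e1]
  have hm' : ∀ q, Measurable fun x => ENNReal.ofReal (h q x) := fun q =>
    ENNReal.measurable_ofReal.comp (hm q)
  rw [lintegral_finsetSum _ fun q _ => (hm' q).const_mul (ENNReal.ofReal (B * w q))]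
  have e2 : ENNReal.ofReal (B * ∑ q ∈ D, w q * C q) =
      ∑ q ∈ D, ENNReal.ofReal (B * w q) * ENNReal.ofReal (C q) := by
    rw [Finset.mul_sum, ENNReal.ofReal_sum_of_nonneg fun q hq =>
      mul_nonneg hB (mul_nonneg (hw q hq) (hC q hq))]
    refine Finset.sum_congr rfl fun q hq => ?_
    rw [← ENNReal.ofReal_mul (mul_nonneg hB (hw q hq))]
    congr 1
    ring
  rw [e2]
  refine Finset.sum_le_sum fun q hq => ?_
  rw [lintegral_const_mul _ (hm' q)]
  exact mul_le_mul' le_rfl (hi q hq)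

/-- the coefficients -/
def bn (n : ℕ) : ℝ := 2 ^ (n + 1) - 2

lemma bn_succ (n : ℕ) : bn (n + 1) = 2 + 2 * bn n := by
  unfold bn
  ring

lemma bn_nonneg (n : ℕ) : 0 ≤ bn n := by
  unfold bn
  have : (1 : ℝ) ≤ 2 ^ n := one_le_pow₀ (by norm_num)
  rw [pow_succ]
  linarith

lemma coreW (D : Finset ℕ) (f g : ℕ → ℝ → ℂ) (A K : ℝ) (V : ℕ → ℝ) (hK : 0 ≤ K) (hV : ∀ q ∈ D, 0 ≤ V q)
    (hf : ∀ q, Continuous (f q)) (hg : ∀ q, Continuous (g q))
    (h1 : ∀ c : ℕ → ℂ, ∫⁻ α, ENNReal.ofReal (‖∑ q ∈ D, c q * (f q α - g q α)‖ ^ 2)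
      ∂(volume.restrict (Icc (-A) A)) ≤ ENNReal.ofReal (K * ∑ q ∈ D, ‖c q‖ ^ 2))
    (h2 : ∀ q ∈ D, ∫⁻ α, ENNReal.ofReal (‖f q α‖ ^ 2) ∂(volume.restrict (Icc (-A) A)) ≤
      ENNReal.ofReal (V q))
    (h3 : ∀ q ∈ D, ∫⁻ α, ENNReal.ofReal (‖g q α‖ ^ 2) ∂(volume.restrict (Icc (-A) A)) ≤
      ENNReal.ofReal (V q)) :
    ∀ (k : ℕ) (c : ℕ → ℂ), ∫⁻ β, ENNReal.ofReal (‖∑ q ∈ D, c q *
      (∏ j, f q (β j) - ∏ j, g q (β j))‖ ^ 2) ∂(mS k A) ≤
      ENNReal.ofReal (bn k * K * ∑ q ∈ D, ‖c q‖ ^ 2 * V q ^ (k - 1)) := by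
  intro k
  induction k with
  | zero =>
    intro c
    simp
  | succ n ih =>
    intro c
    have hc : Continuous fun β : Fin (n + 1) → ℝ => ‖∑ q ∈ D, c q *
        (∏ j, f q (β j) - ∏ j, g q (β j))‖ ^ 2 := by fun_prop
    rw [lint_prod A _ (mor hc)]
    set S1 : ℝ × (Fin n → ℝ) → ℂ := fun p =>
      ∑ q ∈ D, (c q * ∏ j, f q (p.2 j)) * (f q p.1 - g q p.1) with hS1
    set S2 : ℝ × (Fin n → ℝ) → ℂ := fun p =>
      ∑ q ∈ D, (c q * g q p.1) * (∏ j, f q (p.2 j) - ∏ j, g q (p.2 j)) with hS2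
    have c1 : Continuous fun p => ‖S1 p‖ ^ 2 := by
      rw [hS1]
      fun_prop
    have c2 : Continuous fun p => ‖S2 p‖ ^ 2 := by
      rw [hS2]
      fun_prop
    have hle : ∀ p : ℝ × (Fin n → ℝ), ENNReal.ofReal (‖∑ q ∈ D, c q *
        (∏ j, f q ((Fin.cons p.1 p.2 : Fin (n + 1) → ℝ) j) -
          ∏ j, g q ((Fin.cons p.1 p.2 : Fin (n + 1) → ℝ) j))‖ ^ 2) ≤
        2 * ENNReal.ofReal (‖S1 p‖ ^ 2) + 2 * ENNReal.ofReal (‖S2 p‖ ^ 2) := by
      intro p
      have e1 : ∑ q ∈ D, c q * (∏ j, f q ((Fin.cons p.1 p.2 : Fin (n + 1) → ℝ) j) -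
          ∏ j, g q ((Fin.cons p.1 p.2 : Fin (n + 1) → ℝ) j)) = S1 p + S2 p := by
        rw [hS1, hS2]
        simp only
        rw [← Finset.sum_add_distrib]
        refine Finset.sum_congr rfl fun q _ => ?_
        rw [Fin.prod_univ_succ, Fin.prod_univ_succ]
        simp only [Fin.cons_zero, Fin.cons_succ]
        ring
      rw [e1]
      have e2 : ‖S1 p + S2 p‖ ^ 2 ≤ 2 * ‖S1 p‖ ^ 2 + 2 * ‖S2 p‖ ^ 2 := by
        have h4 := norm_add_le (S1 p) (S2 p)
        have h5 : ‖S1 p + S2 p‖ ^ 2 ≤ (‖S1 p‖ + ‖S2 p‖) ^ 2 := by gcongr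
        nlinarith [sq_nonneg (‖S1 p‖ - ‖S2 p‖)]
      refine (ENNReal.ofReal_le_ofReal e2).trans ?_
      rw [ENNReal.ofReal_add (by positivity) (by positivity), ENNReal.ofReal_mul (by norm_num),
        ENNReal.ofReal_mul (by norm_num)]
      simp
    refine (lintegral_mono hle).trans ?_
    rw [lintegral_add_left ((mor c1).const_mul 2), lintegral_const_mul _ (mor c1),
      lintegral_const_mul _ (mor c2)]
    -- the first part
    have b1 : ∫⁻ p, ENNReal.ofReal (‖S1 p‖ ^ 2) ∂((volume.restrict (Icc (-A) A)).prod (mS n A)) ≤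
        ENNReal.ofReal (K * ∑ q ∈ D, ‖c q‖ ^ 2 * V q ^ n) := by
      rw [lintegral_prod_symm _ (mor c1).aemeasurable]
      have e3 : ∀ γ : Fin n → ℝ, ∫⁻ x, ENNReal.ofReal (‖S1 (x, γ)‖ ^ 2)
          ∂(volume.restrict (Icc (-A) A)) ≤
          ENNReal.ofReal (K * ∑ q ∈ D, ‖c q‖ ^ 2 * ‖∏ j, f q (γ j)‖ ^ 2) := by
        intro γ
        refine (h1 fun q => c q * ∏ j, f q (γ j)).trans (le_of_eq ?_)
        simp only [norm_mul, mul_pow]
      refine (lintegral_mono e3).trans ?_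
      refine wsumW (mS n A) D (fun q => ‖c q‖ ^ 2) (fun q => V q ^ n)
        (fun q γ => ‖∏ j, f q (γ j)‖ ^ 2) hK
        (fun q _ => sq_nonneg _) (fun q _ x => sq_nonneg _) (fun q => ?_) (fun q hq => pow_nonneg (hV q hq) n)
        fun q hq => pmom (hV q hq) (hf q) (h2 q hq) n
      have : Continuous fun γ : Fin n → ℝ => ‖∏ j, f q (γ j)‖ ^ 2 := by fun_prop
      exact this.measurable
    -- the second part
    have b2 : ∫⁻ p, ENNReal.ofReal (‖S2 p‖ ^ 2) ∂((volume.restrict (Icc (-A) A)).prod (mS n A)) ≤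
        ENNReal.ofReal (bn n * K * ∑ q ∈ D, ‖c q‖ ^ 2 * V q ^ n) := by
      rcases Nat.eq_zero_or_pos n with rfl | hn
      · have e4 : ∀ p, S2 p = 0 := by
          intro p
          rw [hS2]
          simp
        simp [e4]
      rw [lintegral_prod _ (mor c2).aemeasurable]
      have e3 : ∀ x : ℝ, ∫⁻ γ, ENNReal.ofReal (‖S2 (x, γ)‖ ^ 2) ∂(mS n A) ≤
          ENNReal.ofReal (bn n * K * ∑ q ∈ D, (‖c q‖ ^ 2 * V q ^ (n - 1)) * ‖g q x‖ ^ 2) := by
        intro x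
        refine (ih fun q => c q * g q x).trans (le_of_eq ?_)
        congr 2
        refine Finset.sum_congr rfl fun q _ => ?_
        rw [norm_mul, mul_pow]
        ring
      refine (lintegral_mono e3).trans ?_
      refine (wsumW (volume.restrict (Icc (-A) A)) D (fun q => ‖c q‖ ^ 2 * V q ^ (n - 1)) V
        (fun q x => ‖g q x‖ ^ 2)
        (mul_nonneg (bn_nonneg n) hK) (fun q hq => mul_nonneg (sq_nonneg _) (pow_nonneg (hV q hq) _))
        (fun q _ x => sq_nonneg _) (fun q => ?_) hV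
        fun q hq => h3 q hq).trans (le_of_eq ?_)
      · have : Continuous fun x : ℝ => ‖g q x‖ ^ 2 := by fun_prop
        exact this.measurable
      · congr 2
        refine Finset.sum_congr rfl fun q _ => ?_
        rw [mul_assoc, ← pow_succ]
        congr 2
        omega
    have hN : 0 ≤ ∑ q ∈ D, ‖c q‖ ^ 2 * V q ^ n :=
      Finset.sum_nonneg fun q hq => mul_nonneg (sq_nonneg _) (pow_nonneg (hV q hq) _)
    calc 2 * ∫⁻ p, ENNReal.ofReal (‖S1 p‖ ^ 2) ∂((volume.restrict (Icc (-A) A)).prod (mS n A)) +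
        2 * ∫⁻ p, ENNReal.ofReal (‖S2 p‖ ^ 2) ∂((volume.restrict (Icc (-A) A)).prod (mS n A))
        ≤ 2 * ENNReal.ofReal (K * ∑ q ∈ D, ‖c q‖ ^ 2 * V q ^ n) +
          2 * ENNReal.ofReal (bn n * K * ∑ q ∈ D, ‖c q‖ ^ 2 * V q ^ n) :=
          add_le_add (mul_le_mul' le_rfl b1) (mul_le_mul' le_rfl b2)
      _ = ENNReal.ofReal (2 * (K * ∑ q ∈ D, ‖c q‖ ^ 2 * V q ^ n) +
          2 * (bn n * K * ∑ q ∈ D, ‖c q‖ ^ 2 * V q ^ n)) := by
          have t1 : 0 ≤ K * ∑ q ∈ D, ‖c q‖ ^ 2 * V q ^ n := mul_nonneg hK hN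
          have t2 : 0 ≤ bn n * K * ∑ q ∈ D, ‖c q‖ ^ 2 * V q ^ n :=
            mul_nonneg (mul_nonneg (bn_nonneg n) hK) hN
          rw [ENNReal.ofReal_add (mul_nonneg (by norm_num) t1) (mul_nonneg (by norm_num) t2),
            ENNReal.ofReal_mul (by norm_num : (0 : ℝ) ≤ 2),
            ENNReal.ofReal_mul (by norm_num : (0 : ℝ) ≤ 2)]
          simp
      _ = ENNReal.ofReal (bn (n + 1) * K * ∑ q ∈ D, ‖c q‖ ^ 2 * V q ^ (n + 1 - 1)) := by
          rw [bn_succ, Nat.add_sub_cancel]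
          congr 1
          ring

/-- TELW: replacement of all the factors, with second moments depending on `q` -/
theorem telW (k : ℕ) (D : Finset ℕ) (f g : ℕ → ℝ → ℂ) (A K : ℝ) (V : ℕ → ℝ) (hA : 0 < A) (hK : 0 ≤ K)
    (hV : ∀ q ∈ D, 0 ≤ V q)
    (hf : ∀ q ∈ D, Continuous (f q)) (hg : ∀ q ∈ D, Continuous (g q))
    (h1 : ∀ c : ℕ → ℂ, ∫ α in (-A)..A, ‖∑ q ∈ D, c q * (f q α - g q α)‖ ^ 2 ≤ K * ∑ q ∈ D, ‖c q‖ ^ 2)
    (h2 : ∀ q ∈ D, ∫ α in (-A)..A, ‖f q α‖ ^ 2 ≤ V q) (h3 : ∀ q ∈ D, ∫ α in (-A)..A, ‖g q α‖ ^ 2 ≤ V q) :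
    ∫⁻ β, ENNReal.ofReal (‖∑ q ∈ D, (∏ j, f q (β j) - ∏ j, g q (β j))‖ ^ 2) ∂(mS k A) ≤
      ENNReal.ofReal (4 ^ k * K * ∑ q ∈ D, V q ^ (k - 1)) := by
  classical
  set f' : ℕ → ℝ → ℂ := fun q => if q ∈ D then f q else fun _ => 0 with hf'
  set g' : ℕ → ℝ → ℂ := fun q => if q ∈ D then g q else fun _ => 0 with hg'
  have ef : ∀ q ∈ D, f' q = f q := fun q hq => if_pos hq
  have eg : ∀ q ∈ D, g' q = g q := fun q hq => if_pos hq
  have cf : ∀ q, Continuous (f' q) := by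
    intro q
    by_cases hq : q ∈ D
    · rw [ef q hq]
      exact hf q hq
    · rw [hf']
      simp only [if_neg hq]
      exact continuous_const
  have cg : ∀ q, Continuous (g' q) := by
    intro q
    by_cases hq : q ∈ D
    · rw [eg q hq]
      exact hg q hq
    · rw [hg']
      simp only [if_neg hq]
      exact continuous_const
  have hAA : -A ≤ A := by linarith
  have h := coreW D f' g' A K V hK hV cf cg (fun c => by
      rw [lint1 hAA (by fun_prop) fun y => sq_nonneg _]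
      apply ENNReal.ofReal_le_ofReal
      refine le_trans (le_of_eq ?_) (h1 c)
      congr 1
      funext α
      congr 2
      refine Finset.sum_congr rfl fun q hq => ?_
      rw [ef q hq, eg q hq])
    (fun q hq => by
      have cfq := cf q
      rw [lint1 hAA (by fun_prop : Continuous fun y => ‖f' q y‖ ^ 2) fun y => sq_nonneg _, ef q hq]
      exact ENNReal.ofReal_le_ofReal (h2 q hq))
    (fun q hq => by
      have cgq := cg q
      rw [lint1 hAA (by fun_prop : Continuous fun y => ‖g' q y‖ ^ 2) fun y => sq_nonneg _, eg q hq]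
      exact ENNReal.ofReal_le_ofReal (h3 q hq)) k (fun _ => 1)
  refine le_trans (le_of_eq ?_) (h.trans (ENNReal.ofReal_le_ofReal ?_))
  · refine lintegral_congr fun β => ?_
    congr 3
    refine Finset.sum_congr rfl fun q hq => ?_
    rw [ef q hq, eg q hq, one_mul]
  · simp only [norm_one, one_pow, one_mul]
    refine mul_le_mul_of_nonneg_right (mul_le_mul_of_nonneg_right ?_ hK)
      (Finset.sum_nonneg fun q hq => pow_nonneg (hV q hq) _)
    unfold bn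
    have e : (4 : ℝ) ^ k = (2 ^ k) ^ 2 := by
      rw [← pow_mul, mul_comm, pow_mul]
      norm_num
    rw [e, pow_succ]
    nlinarith [sq_nonneg ((2 : ℝ) ^ k - 1)]

end

end Run7.h819.QM
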