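import Pool.Agent.N879.QM.Mb
import Pool.Agent.N879.QM.P2
import Pool.Agent.N879.QM.Bigp

set_option autoImplicit false

/-!
helper819, project QM: the second moment of one `L`-function in a short interval.
-/

namespace Run7.h819.QM

open Complex Filter Topology MeasureTheory Set
open scoped BigOperators
open Pool.Agent.N879.QM

noncomputable section

lemma vl_le_one (s : ℤ) (q n : ℕ) : ‖vl s q n‖ ≤ 1 := DirichletCharacter.norm_le_one _ _

open BigAux Bigpaux in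
/-- long pieces for one character, no condition on the conductor -/
theorem big1 (h1 : S_BLK) (h2 : S_ONE) (h3 : S_PVI) : ∃ C : ℝ, 0 < C ∧ ∀ (s : ℤ) (q : ℕ) (A : ℝ) (K : ℕ),
    Is s q → 2 ≤ A → A ≤ K →
    ∫ α in (-A)..A, ‖SK s q K α‖ ^ 2 ≤ C * A * (1 + (q : ℝ) / K) * (1 + Real.log q ^ 2) := by
  obtain ⟨C1, hC1, h1⟩ := h1
  obtain ⟨C3, hC3, h3⟩ := h3
  refine ⟨C1 * (3 + 2 * C3), by positivity, fun s q A K hq hA hAK => ?_⟩
  have hApos : 0 < A := by linarith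
  have hKpos : (0 : ℝ) < K := by linarith
  have hK1 : 1 ≤ K := by exact_mod_cast hKpos
  obtain ⟨H, hH1, hH2, hH3⟩ := exH A K hA hAK
  have hHpos : (0 : ℝ) < H := by exact_mod_cast hH1
  set L : ℝ := Real.log q ^ 2 with hL
  have hL0 : 0 ≤ L := sq_nonneg _
  set E : ℝ := C3 * q * L with hE
  set B : ℝ := (((K + 1 : ℕ) : ℝ) + q) * H + 2 * (H * E) with hB
  have hmain := h1 (vl s q) K H A B hA hAK hH1 hH2 hH3 (fun t ht => by
    have g1 := h2 s q (K - 1) (K + 1) t hq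
    have g3 : ((min t q : ℕ) : ℝ) ≤ t := by exact_mod_cast min_le_left _ _
    have g2 := blocks (vl s q) K t hK1 ((((K + 1 : ℕ) : ℝ) + q) * t) E (by positivity)
      (g1.trans (mul_le_mul_of_nonneg_left g3 (by positivity)))
      (fun x t' _ => h3 s q x t' hq)
    refine g2.trans ?_
    have ht' : (t : ℝ) ≤ H := by exact_mod_cast ht
    rw [hB]
    gcongr)
  unfold SK
  refine hmain.trans ?_
  have k1 : (A / (K * H)) * B = A * (((K + 1 : ℕ) : ℝ) / K + (q : ℝ) / K + 2 * C3 * L * ((q : ℝ) / K)) := by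
    rw [hB, hE]
    field_simp
  have k2 : ((K + 1 : ℕ) : ℝ) / K ≤ 2 := by
    rw [div_le_iff₀ hKpos]
    push_cast
    linarith
  have k3 : 0 ≤ (q : ℝ) / K := by positivity
  have k5 : (A / (K * H)) * B ≤ (3 + 2 * C3) * A * (1 + (q : ℝ) / K) * (1 + L) := by
    rw [k1]
    have e5 : 0 ≤ C3 * ((q : ℝ) / K) := by positivity
    have e6 : 0 ≤ L * ((q : ℝ) / K) := by positivity
    have e7 : 0 ≤ C3 * L := by positivity
    have e4 : ((K + 1 : ℕ) : ℝ) / K + (q : ℝ) / K + 2 * C3 * L * ((q : ℝ) / K) ≤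
        (3 + 2 * C3) * ((1 + (q : ℝ) / K) * (1 + L)) := by
      have : (3 + 2 * C3) * ((1 + (q : ℝ) / K) * (1 + L)) = 3 + 3 * L + 3 * ((q : ℝ) / K) +
        3 * (L * ((q : ℝ) / K)) + 2 * C3 + 2 * (C3 * L) + 2 * (C3 * ((q : ℝ) / K)) +
          2 * C3 * L * ((q : ℝ) / K) := by ring
      rw [this]
      linarith
    calc A * (((K + 1 : ℕ) : ℝ) / K + (q : ℝ) / K + 2 * C3 * L * ((q : ℝ) / K)) ≤
          A * ((3 + 2 * C3) * ((1 + (q : ℝ) / K) * (1 + L))) := mul_le_mul_of_nonneg_left e4 hApos.le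
      _ = _ := by ring
  calc C1 * (A / (K * H)) * B = C1 * ((A / (K * H)) * B) := by ring
    _ ≤ C1 * ((3 + 2 * C3) * A * (1 + (q : ℝ) / K) * (1 + L)) := mul_le_mul_of_nonneg_left k5 hC1.le
    _ = C1 * (3 + 2 * C3) * A * (1 + (q : ℝ) / K) * (1 + L) := by ring

open P2 in
/-- pieces of length between `A` and `A² / 2` by the mean value theorem -/
theorem mid1 : ∃ C : ℝ, 0 < C ∧ ∀ (A : ℝ) (K : ℕ) (a : ℕ → ℂ), 1 ≤ A → 1 ≤ K → 2 * (K : ℝ) ≤ A ^ 2 →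
    (∀ n, ‖a n‖ ≤ 1) →
    ∫ α in (-A)..A, ‖∑ n ∈ Finset.Ioc K (2 * K), a n * (n : ℂ) ^ (-(pt α))‖ ^ 2 ≤ C * (A + K) := by
  obtain ⟨C, hC, h⟩ := MV2
  refine ⟨C, hC, fun A K a hA hK0 hKA ha => ?_⟩
  simp only [ioc_eq]
  refine (h A (2 * K) _ (by linarith) ?_).trans ?_
  · push_cast
    exact hKA
  have hKr : (0 : ℝ) < K := by exact_mod_cast hK0
  have h1 : ∑ n ∈ Finset.Icc 1 (2 * K), (A + n) / n * ‖if K < n then a n else 0‖ ^ 2 ≤
      ∑ n ∈ Finset.Ioc K (2 * K), (A + K) / K := by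
    have e : Finset.Ioc K (2 * K) = (Finset.Icc 1 (2 * K)).filter (fun n => K < n) := by
      ext n
      simp only [Finset.mem_Ioc, Finset.mem_filter, Finset.mem_Icc]
      omega
    rw [e, Finset.sum_filter]
    refine Finset.sum_le_sum fun n _ => ?_
    by_cases hn : K < n
    · rw [if_pos hn, if_pos hn]
      have hn0 : (K : ℝ) < n := by exact_mod_cast hn
      have h2 : (A + n) / n ≤ (A + K) / K := by
        rw [div_le_div_iff₀ (by linarith) hKr]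
        nlinarith
      have h3 : ‖a n‖ ^ 2 ≤ 1 := pow_le_one₀ (norm_nonneg _) (ha n)
      have h4 : 0 ≤ (A + n) / n := by positivity
      calc (A + n) / n * ‖a n‖ ^ 2 ≤ (A + n) / n * 1 := mul_le_mul_of_nonneg_left h3 h4
        _ ≤ _ := by rw [mul_one]; exact h2
    · rw [if_neg hn, if_neg hn]
      simp
  rw [Finset.sum_const, Nat.card_Ioc, nsmul_eq_mul] at h1
  have e2 : ((2 * K - K : ℕ) : ℝ) * ((A + K) / K) = A + K := by
    have : 2 * K - K = K := by omega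
    rw [this]
    field_simp
  rw [e2] at h1
  exact mul_le_mul_of_nonneg_left h1 hC.le

open Mbaux OPaux in
/-- the second moment of one `L`-function in `[-A, A]`, for `q ≤ X ≤ A³` and `A ≤ X` -/
theorem vb (h1 : S_P1) (hB : S_BLK) (hO : S_ONE) (hV : S_PVI) (h3 : S_AFS) (h4 : S_CTS) :
    ∀ ε : ℝ, 0 < ε → ∃ C : ℝ, 0 < C ∧ ∀ (s : ℤ) (q : ℕ) (X A : ℝ), Is s q → (q : ℝ) ≤ X →
      2 ≤ A → A ≤ X → X ≤ A ^ 3 →
      ∫ α in (-A)..A, ‖LL s q (pt α)‖ ^ 2 ≤ C * X ^ ε * √(A * X) := by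
  intro ε hε
  obtain ⟨e, he⟩ : ∃ e : ℝ, e = ε / 4 := ⟨_, rfl⟩
  have he0 : 0 < e := by rw [he]; positivity
  obtain ⟨C1, hC1, h1⟩ := h1
  obtain ⟨C0, hC0, h0⟩ := mid1
  obtain ⟨C2, hC2, h2⟩ := big1 hB hO hV
  obtain ⟨C3, hC3, h3⟩ := h3
  obtain ⟨C4, hC4⟩ : ∃ C4 : ℝ, C4 = C1 + 2 * C0 + 3 * C2 * (1 + 1 / e ^ 2) := ⟨_, rfl⟩
  have hC40 : 0 < C4 := by rw [hC4]; positivity
  refine ⟨3 * (2 * (C3 ^ 2 + 1) + (3 + 9 / e) ^ 2 * C4), by positivity, ?_⟩
  intro s q X A hI hqX hA hAX hXA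
  have hX : 2 ≤ X := hA.trans hAX
  have hX0 : 0 < X := by linarith
  have hX1 : 1 ≤ X := by linarith
  have hA0 : 0 < A := by linarith
  obtain ⟨R, hR⟩ : ∃ R : ℝ, R = √(A * X) := ⟨_, rfl⟩
  have hR2 : R ^ 2 = A * X := by rw [hR]; exact Real.sq_sqrt (by positivity)
  have hR0 : 0 < R := by rw [hR]; positivity
  have hAR : A ≤ R := by
    rw [hR]
    apply Real.le_sqrt_of_sq_le
    nlinarith
  have hRA : R ≤ A ^ 2 := by
    rw [hR]
    apply Real.sqrt_le_iff.2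
    refine ⟨by positivity, ?_⟩
    calc A * X ≤ A * A ^ 3 := mul_le_mul_of_nonneg_left hXA hA0.le
      _ = (A ^ 2) ^ 2 := by ring
  obtain ⟨J, hJ1, hJ2⟩ := pieces he0 hX
  have hcS : ∀ i : ℕ, Continuous fun α : ℝ => ‖SK s q (2 ^ i) α‖ ^ 2 := fun i =>
    ((SK_cont s q (2 ^ i)).norm).pow 2
  have hXe : (1 : ℝ) ≤ X ^ (2 * e) := Real.one_le_rpow hX1 (by positivity)
  have hlog : 1 + Real.log q ^ 2 ≤ (1 + 1 / e ^ 2) * X ^ (2 * e) := by
    have hq1 : (1 : ℝ) ≤ q := by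
      have := hI.1
      exact_mod_cast (by omega : 1 ≤ q)
    have h7 : 0 ≤ Real.log q := Real.log_nonneg hq1
    have h8 : Real.log q ≤ X ^ e / e :=
      (Real.log_le_log (by linarith) hqX).trans (Real.log_le_rpow_div hX0.le he0)
    have h9 : Real.log q ^ 2 ≤ 1 / e ^ 2 * X ^ (2 * e) := by
      calc Real.log q ^ 2 ≤ (X ^ e / e) ^ 2 := pow_le_pow_left₀ h7 h8 2
        _ = 1 / e ^ 2 * (X ^ e) ^ 2 := by rw [div_pow]; ring
        _ = 1 / e ^ 2 * X ^ (2 * e) := by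
            rw [← Real.rpow_natCast (X ^ e), ← Real.rpow_mul hX0.le]
            congr 2
            push_cast
            ring
    nlinarith
  -- pieces
  have hpiece : ∀ i : ℕ, ∫ α in (-A)..A, ‖SK s q (2 ^ i) α‖ ^ 2 ≤ C4 * X ^ (2 * e) * R := by
    intro i
    have b1 : C1 * R ≤ C4 * X ^ (2 * e) * R := by
      have h5 : C1 ≤ C4 := by
        rw [hC4]
        have : 0 ≤ 3 * C2 * (1 + 1 / e ^ 2) := by positivity
        linarith
      have h6 : C4 ≤ C4 * X ^ (2 * e) := le_mul_of_one_le_right hC40.le hXe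
      exact mul_le_mul_of_nonneg_right (h5.trans h6) hR0.le
    have b2 : 2 * C0 * R ≤ C4 * X ^ (2 * e) * R := by
      have h5 : 2 * C0 ≤ C4 := by
        rw [hC4]
        have : 0 ≤ 3 * C2 * (1 + 1 / e ^ 2) := by positivity
        linarith
      have h6 : C4 ≤ C4 * X ^ (2 * e) := le_mul_of_one_le_right hC40.le hXe
      exact mul_le_mul_of_nonneg_right (h5.trans h6) hR0.le
    by_cases hi : ((2 ^ i : ℕ) : ℝ) ≤ A
    · have h5 := (h1 A (2 ^ i) (fun n => vl s q n) hA hi (fun n => vl_le_one s q n)).1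
      refine (show ∫ α in (-A)..A, ‖SK s q (2 ^ i) α‖ ^ 2 ≤ C1 * A from h5).trans ?_
      exact (mul_le_mul_of_nonneg_left hAR hC1.le).trans b1
    · push Not at hi
      by_cases hi2 : 2 * ((2 ^ i : ℕ) : ℝ) ≤ R
      · have h5 := h0 A (2 ^ i) (fun n => vl s q n) (by linarith) Nat.one_le_two_pow (hi2.trans hRA)
          (fun n => vl_le_one s q n)
        refine (show ∫ α in (-A)..A, ‖SK s q (2 ^ i) α‖ ^ 2 ≤ C0 * (A + ((2 ^ i : ℕ) : ℝ)) from h5).trans ?_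
        refine le_trans ?_ b2
        have : A + ((2 ^ i : ℕ) : ℝ) ≤ 2 * R := by linarith
        calc C0 * (A + ((2 ^ i : ℕ) : ℝ)) ≤ C0 * (2 * R) := mul_le_mul_of_nonneg_left this hC0.le
          _ = _ := by ring
      · push Not at hi2
        refine (h2 s q A (2 ^ i) hI hA hi.le).trans ?_
        have hK0 : (0 : ℝ) < ((2 ^ i : ℕ) : ℝ) := by linarith
        have h5 : A * (1 + (q : ℝ) / ((2 ^ i : ℕ) : ℝ)) ≤ 3 * R := by
          have h6 : A * ((q : ℝ) / ((2 ^ i : ℕ) : ℝ)) ≤ 2 * R := by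
            rw [mul_div_assoc', div_le_iff₀ hK0]
            calc A * (q : ℝ) ≤ A * X := mul_le_mul_of_nonneg_left hqX hA0.le
              _ = R * R := by rw [← hR2]; ring
              _ ≤ R * (2 * ((2 ^ i : ℕ) : ℝ)) := mul_le_mul_of_nonneg_left hi2.le hR0.le
              _ = _ := by ring
          have : A * (1 + (q : ℝ) / ((2 ^ i : ℕ) : ℝ)) = A + A * ((q : ℝ) / ((2 ^ i : ℕ) : ℝ)) := by ring
          rw [this]
          linarith
        have h6 : 0 ≤ A * (1 + (q : ℝ) / ((2 ^ i : ℕ) : ℝ)) := by positivity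
        calc C2 * A * (1 + (q : ℝ) / ((2 ^ i : ℕ) : ℝ)) * (1 + Real.log q ^ 2)
            = C2 * (A * (1 + (q : ℝ) / ((2 ^ i : ℕ) : ℝ))) * (1 + Real.log q ^ 2) := by ring
          _ ≤ C2 * (3 * R) * ((1 + 1 / e ^ 2) * X ^ (2 * e)) := by gcongr
          _ = (3 * C2 * (1 + 1 / e ^ 2)) * X ^ (2 * e) * R := by ring
          _ ≤ C4 * X ^ (2 * e) * R := by
              have h7 : 3 * C2 * (1 + 1 / e ^ 2) ≤ C4 := by rw [hC4]; linarith
              gcongr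
  -- the error
  have hE : ∀ α ∈ Icc (-A) A, ‖LL s q (pt α) - PN s q (2 ^ J) α‖ ≤ C3 := by
    intro α hα
    have h5 := h3 s q (2 ^ J) α hI Nat.one_le_two_pow
    have h6 : |α| ≤ X := (abs_le.2 hα).trans hAX
    have h7 : X ^ 3 ≤ √((2 ^ J : ℕ) : ℝ) := by
      apply Real.le_sqrt_of_sq_le
      rw [← pow_mul]
      push_cast
      exact hJ1
    refine h5.trans ?_
    rw [div_le_iff₀ (lt_of_lt_of_le (by positivity) h7)]
    calc C3 * q * (1 + |α|) ≤ C3 * X * (1 + X) := by gcongr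
      _ = C3 * (X * (1 + X)) := by ring
      _ ≤ C3 * X ^ 3 := by
          refine mul_le_mul_of_nonneg_left ?_ hC3.le
          nlinarith [sq_nonneg (X - 2), mul_pos hX0 hX0]
      _ ≤ C3 * √((2 ^ J : ℕ) : ℝ) := mul_le_mul_of_nonneg_left h7 hC3.le
  -- pointwise
  have hpt : ∀ α ∈ Icc (-A) A, ‖LL s q (pt α)‖ ^ 2 ≤
      3 * (C3 ^ 2 + 1 + J * ∑ i ∈ Finset.range J, ‖SK s q (2 ^ i) α‖ ^ 2) := by
    intro α hα
    have h5 := hE α hα
    have h6 := Mbaux.PN_one_le s q α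
    obtain ⟨x, hx⟩ : ∃ x, x = ‖LL s q (pt α) - PN s q (2 ^ J) α‖ := ⟨_, rfl⟩
    obtain ⟨y, hy⟩ : ∃ y, y = ‖PN s q 1 α‖ := ⟨_, rfl⟩
    obtain ⟨z, hz⟩ : ∃ z, z = ∑ i ∈ Finset.range J, ‖SK s q (2 ^ i) α‖ := ⟨_, rfl⟩
    have hx0 : 0 ≤ x := by rw [hx]; exact norm_nonneg _
    have hy0 : 0 ≤ y := by rw [hy]; exact norm_nonneg _
    have hz0 : 0 ≤ z := by rw [hz]; exact Finset.sum_nonneg fun i _ => norm_nonneg _
    have hdy : PN s q (2 ^ J) α = PN s q 1 α + ∑ i ∈ Finset.range J, SK s q (2 ^ i) α := by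
      have h7 := PN_dyadic s q 1 α J
      simp only [one_mul] at h7
      exact h7
    have h7 : ‖LL s q (pt α)‖ ≤ x + y + z := by
      calc ‖LL s q (pt α)‖ = ‖(LL s q (pt α) - PN s q (2 ^ J) α) + PN s q 1 α +
            ∑ i ∈ Finset.range J, SK s q (2 ^ i) α‖ := by
            congr 1
            rw [hdy]
            ring
        _ ≤ ‖LL s q (pt α) - PN s q (2 ^ J) α‖ + ‖PN s q 1 α‖ +
            ‖∑ i ∈ Finset.range J, SK s q (2 ^ i) α‖ := norm_add₃_le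
        _ ≤ _ := by
            rw [← hx, ← hy, hz]
            exact add_le_add_right (norm_sum_le _ _) _
    have h8 : z ^ 2 ≤ J * ∑ i ∈ Finset.range J, ‖SK s q (2 ^ i) α‖ ^ 2 := by
      have h9 := sq_sum_le_card_mul_sum_sq (s := Finset.range J)
        (f := fun i => ‖SK s q (2 ^ i) α‖)
      rw [Finset.card_range] at h9
      rw [hz]
      exact h9
    rw [← hx] at h5
    rw [← hy] at h6
    have h10 : x ^ 2 ≤ C3 ^ 2 := pow_le_pow_left₀ hx0 h5 2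
    have h11 : y ^ 2 ≤ 1 := by nlinarith
    calc ‖LL s q (pt α)‖ ^ 2 ≤ (x + y + z) ^ 2 := pow_le_pow_left₀ (norm_nonneg _) h7 2
      _ ≤ 3 * (x ^ 2 + y ^ 2 + z ^ 2) := by
          nlinarith [sq_nonneg (x - y), sq_nonneg (y - z), sq_nonneg (x - z)]
      _ ≤ _ := by linarith
  have hcL : Continuous fun α : ℝ => ‖LL s q (pt α)‖ ^ 2 := ((h4 s q hI).norm).pow 2
  have hcSum : Continuous fun α : ℝ => ∑ i ∈ Finset.range J, ‖SK s q (2 ^ i) α‖ ^ 2 :=
    continuous_finsetSum _ fun i _ => hcS i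
  have h5 : ∫ α in (-A)..A, ‖LL s q (pt α)‖ ^ 2 ≤ ∫ α in (-A)..A,
      3 * (C3 ^ 2 + 1 + J * ∑ i ∈ Finset.range J, ‖SK s q (2 ^ i) α‖ ^ 2) :=
    intervalIntegral.integral_mono_on (by linarith) (hcL.intervalIntegrable _ _)
      (Continuous.intervalIntegrable (by fun_prop) _ _) hpt
  have h6 : ∫ α in (-A)..A, 3 * (C3 ^ 2 + 1 + J * ∑ i ∈ Finset.range J, ‖SK s q (2 ^ i) α‖ ^ 2) =
      3 * (2 * A * (C3 ^ 2 + 1) +
        J * ∑ i ∈ Finset.range J, ∫ α in (-A)..A, ‖SK s q (2 ^ i) α‖ ^ 2) := by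
    rw [intervalIntegral.integral_const_mul, intervalIntegral.integral_add
      (Continuous.intervalIntegrable (by fun_prop) _ _)
      (Continuous.intervalIntegrable (by fun_prop) _ _), intervalIntegral.integral_const,
      intervalIntegral.integral_const_mul, intervalIntegral.integral_finsetSum
        (fun i _ => (hcS i).intervalIntegrable _ _), smul_eq_mul]
    ring
  have h7 : ∑ i ∈ Finset.range J, ∫ α in (-A)..A, ‖SK s q (2 ^ i) α‖ ^ 2 ≤
      J * (C4 * X ^ (2 * e) * R) := by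
    refine (Finset.sum_le_sum fun i _ => hpiece i).trans (le_of_eq ?_)
    rw [Finset.sum_const, Finset.card_range, nsmul_eq_mul]
  have hJJ : (J : ℝ) * J ≤ (3 + 9 / e) ^ 2 * X ^ (2 * e) := by
    have hJ0 : (0 : ℝ) ≤ J := Nat.cast_nonneg _
    calc (J : ℝ) * J ≤ ((J : ℝ) + 2) ^ 2 := by nlinarith
      _ ≤ ((3 + 9 / e) * X ^ e) ^ 2 := pow_le_pow_left₀ (by positivity) hJ2 2
      _ = (3 + 9 / e) ^ 2 * (X ^ e) ^ 2 := mul_pow _ _ _
      _ = _ := by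
          rw [← Real.rpow_natCast (X ^ e), ← Real.rpow_mul hX0.le]
          congr 2
          push_cast
          ring
  have hXee : X ^ (2 * e) * X ^ (2 * e) = X ^ ε := by
    rw [← Real.rpow_add hX0]
    congr 1
    rw [he]
    ring
  have hX1e : (1 : ℝ) ≤ X ^ ε := Real.one_le_rpow hX1 hε.le
  have h8 : (J : ℝ) * ∑ i ∈ Finset.range J, ∫ α in (-A)..A, ‖SK s q (2 ^ i) α‖ ^ 2 ≤
      (3 + 9 / e) ^ 2 * C4 * (X ^ ε * R) := by
    calc (J : ℝ) * ∑ i ∈ Finset.range J, ∫ α in (-A)..A, ‖SK s q (2 ^ i) α‖ ^ 2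
        ≤ J * (J * (C4 * X ^ (2 * e) * R)) := mul_le_mul_of_nonneg_left h7 (Nat.cast_nonneg _)
      _ = ((J : ℝ) * J) * (C4 * X ^ (2 * e) * R) := by ring
      _ ≤ ((3 + 9 / e) ^ 2 * X ^ (2 * e)) * (C4 * X ^ (2 * e) * R) :=
          mul_le_mul_of_nonneg_right hJJ (by positivity)
      _ = (3 + 9 / e) ^ 2 * C4 * ((X ^ (2 * e) * X ^ (2 * e)) * R) := by ring
      _ = _ := by rw [hXee]
  have h9 : 2 * A * (C3 ^ 2 + 1) ≤ 2 * (C3 ^ 2 + 1) * (X ^ ε * R) := by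
    have : A ≤ X ^ ε * R := hAR.trans (le_mul_of_one_le_left hR0.le hX1e)
    calc 2 * A * (C3 ^ 2 + 1) = 2 * (C3 ^ 2 + 1) * A := by ring
      _ ≤ _ := mul_le_mul_of_nonneg_left this (by positivity)
  rw [← hR]
  calc ∫ α in (-A)..A, ‖LL s q (pt α)‖ ^ 2 ≤ _ := h5
    _ = _ := h6
    _ ≤ 3 * (2 * (C3 ^ 2 + 1) * (X ^ ε * R) + (3 + 9 / e) ^ 2 * C4 * (X ^ ε * R)) := by linarith
    _ = _ := by ring

end

end Run7.h819.QM
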