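import Pool.Agent.N879.QM.AllB
import Pool.Agent.Run7.h819.QM.TelW
import Pool.Agent.Run7.h819.QM.Vb
import Pool.Agent.Run7.h819.QM.OpN

set_option autoImplicit false

/-! helper819, project QM: shifts in `[-X^θ, X^θ]^k` with `θ < 1` near `1`, no discriminant removed. Assembly. -/

namespace Run7.h819.QM

open Complex Filter Topology MeasureTheory Set
open Pool.Agent.N879.QM

noncomputable section

variable {k : ℕ}

/-- the operator bound (statement of `opN`) -/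
def S_OPN : Prop := ∀ ε : ℝ, 0 < ε → ∃ C : ℝ, 0 < C ∧ ∀ (s : ℤ) (X A d : ℝ) (N : ℕ) (c : ℕ → ℂ), s = 1 ∨ s = -1 →
  2 ≤ A → A ≤ X → 0 ≤ d → d ≤ 1 → 1 ≤ N →
  ∫ α in (-A)..A, ‖∑ q ∈ Q s X, c q * (LL s q (pt α) - PN s q N α)‖ ^ 2 ≤
    C * X ^ ε * A * (X / √N + X * A ^ (-(1 / 3) : ℝ) + X ^ (1 + d) * A ^ (-1 : ℝ) +
      X ^ ((1 + d) * (2 / 3)) + X ^ (1 - d)) * ∑ q ∈ Q s X, ‖c q‖ ^ 2

/-- the saving in the operator bound -/
def sg (θ : ℝ) : ℝ := min (θ / 3) (1 / 5)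

lemma sg_pos {θ : ℝ} (hθ : 0 < θ) : 0 < sg θ := by unfold sg; positivity

lemma sg_le1 (θ : ℝ) : sg θ ≤ θ / 3 := min_le_left _ _

lemma sg_le2 (θ : ℝ) : sg θ ≤ 1 / 5 := min_le_right _ _

/-- the operator bound for `L - P_N` with `N` about `X^η`, `η ≤ 2 sg θ` -/
lemma KN (hO : S_OPN) {θ ρ : ℝ} (hθ : 0 < θ) (hθ1 : θ ≤ 1) (hρ : 0 < ρ) :
    ∃ C : ℝ, 0 < C ∧ ∀ (η : ℝ), 0 < η → η ≤ 2 * sg θ → ∀ (s : ℤ) (X : ℝ) (N : ℕ) (c : ℕ → ℂ),
      s = 1 ∨ s = -1 → 2 ≤ X → 2 ≤ X ^ θ → X ^ η / 2 ≤ N → 1 ≤ N →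
      ∫ α in (-(X ^ θ))..(X ^ θ), ‖∑ q ∈ Q s X, c q * (LL s q (pt α) - PN s q N α)‖ ^ 2 ≤
        C * (X ^ θ * X ^ (1 + ρ - η / 2)) * ∑ q ∈ Q s X, ‖c q‖ ^ 2 := by
  obtain ⟨CO, hCO, hO⟩ := hO ρ hρ
  refine ⟨6 * CO, by positivity, ?_⟩
  intro η hη hη1 s X N c hs hX v2 hN hN1
  have hX0 : 0 < X := by linarith
  have hX1 : 1 ≤ X := by linarith
  obtain ⟨A, hA⟩ : ∃ A : ℝ, A = X ^ θ := ⟨_, rfl⟩
  have hAX : A ≤ X := by
    rw [hA]
    calc X ^ θ ≤ X ^ (1 : ℝ) := Real.rpow_le_rpow_of_exponent_le hX1 hθ1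
      _ = X := Real.rpow_one X
  rw [← hA] at v2 ⊢
  have hA0 : 0 < A := by linarith
  have hN0 : (0 : ℝ) < N := by exact_mod_cast hN1
  obtain ⟨d, hd⟩ : ∃ d : ℝ, d = sg θ := ⟨_, rfl⟩
  have hd0 : 0 < d := by rw [hd]; exact sg_pos hθ
  have hd1 : d ≤ θ / 3 := by rw [hd]; exact sg_le1 θ
  have hd2 : d ≤ 1 / 5 := by rw [hd]; exact sg_le2 θ
  rw [← hd] at hη1
  refine (hO s X A d N c hs v2 hAX hd0.le (by linarith) hN1).trans ?_
  have e1 : X / √N ≤ 2 * X ^ (1 - η / 2) := by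
    have h2 : √(X ^ η / 2) ≤ √N := Real.sqrt_le_sqrt hN
    have h4 : X ^ (η / 2) / 2 ≤ √(X ^ η / 2) := by
      apply Real.le_sqrt_of_sq_le
      have h5 : (X ^ (η / 2)) ^ 2 = X ^ η := by
        rw [← Real.rpow_natCast, ← Real.rpow_mul hX0.le]
        congr 1
        push_cast; linarith
      have : (X ^ (η / 2) / 2) ^ 2 = (X ^ (η / 2)) ^ 2 / 4 := by ring
      rw [this, h5]
      have : 0 < X ^ η := by positivity
      linarith
    have h3 : 0 < X ^ (η / 2) := by positivity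
    rw [div_le_iff₀ (by linarith)]
    have h6 : X = X ^ (1 - η / 2) * X ^ (η / 2) := by
      rw [← Real.rpow_add hX0]; ring_nf; exact (Real.rpow_one X).symm
    have h7 : 0 < X ^ (1 - η / 2) := by positivity
    calc X = 2 * X ^ (1 - η / 2) * (X ^ (η / 2) / 2) := by rw [mul_assoc]; nth_rewrite 1 [h6]; ring
      _ ≤ 2 * X ^ (1 - η / 2) * √N := by
          apply mul_le_mul_of_nonneg_left _ (by positivity)
          linarith
  have e2 : X * A ^ (-(1 / 3) : ℝ) ≤ X ^ (1 - η / 2) := by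
    rw [hA, ← Real.rpow_mul hX0.le]
    nth_rewrite 1 [← Real.rpow_one X]
    rw [← Real.rpow_add hX0]
    apply Real.rpow_le_rpow_of_exponent_le hX1
    linarith
  have e3 : X ^ (1 + d) * A ^ (-1 : ℝ) ≤ X ^ (1 - η / 2) := by
    rw [hA, ← Real.rpow_mul hX0.le, ← Real.rpow_add hX0]
    apply Real.rpow_le_rpow_of_exponent_le hX1
    linarith
  have e4 : X ^ ((1 + d) * (2 / 3)) ≤ X ^ (1 - η / 2) := by
    apply Real.rpow_le_rpow_of_exponent_le hX1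
    linarith
  have e5 : X ^ (1 - d) ≤ X ^ (1 - η / 2) := by
    apply Real.rpow_le_rpow_of_exponent_le hX1
    linarith
  have e6 : X / √N + X * A ^ (-(1 / 3) : ℝ) + X ^ (1 + d) * A ^ (-1 : ℝ) + X ^ ((1 + d) * (2 / 3)) +
      X ^ (1 - d) ≤ 6 * X ^ (1 - η / 2) := by linarith
  have e7 : X ^ (1 + ρ - η / 2) = X ^ ρ * X ^ (1 - η / 2) := by
    rw [← Real.rpow_add hX0]; congr 1; ring
  have hS : 0 ≤ ∑ q ∈ Q s X, ‖c q‖ ^ 2 := Finset.sum_nonneg fun _ _ => by positivity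
  rw [e7]
  calc CO * X ^ ρ * A * (X / √N + X * A ^ (-(1 / 3) : ℝ) + X ^ (1 + d) * A ^ (-1 : ℝ) +
        X ^ ((1 + d) * (2 / 3)) + X ^ (1 - d)) * ∑ q ∈ Q s X, ‖c q‖ ^ 2
      ≤ CO * X ^ ρ * A * (6 * X ^ (1 - η / 2)) * ∑ q ∈ Q s X, ‖c q‖ ^ 2 := by gcongr
    _ = _ := by ring

/-- the sum of the powers of the local second moments -/
lemma Vsum (hMB : S_MB)
    (hVB : ∀ ε : ℝ, 0 < ε → ∃ C : ℝ, 0 < C ∧ ∀ (s : ℤ) (q : ℕ) (X A : ℝ), Is s q → (q : ℝ) ≤ X →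
      2 ≤ A → A ≤ X → X ≤ A ^ 3 → ∫ α in (-A)..A, ‖LL s q (pt α)‖ ^ 2 ≤ C * X ^ ε * √(A * X))
    (hk : 1 ≤ k) {θ ρ : ℝ} (hθ1 : θ ≤ 1) (hρ : 0 < ρ) (hk3 : k ≤ 2 ∨ 1 / 3 ≤ θ)
    {CP : ℝ} (hCP : 0 < CP) :
    ∃ C : ℝ, 0 < C ∧ ∀ (s : ℤ) (X : ℝ), s = 1 ∨ s = -1 → 2 ≤ X → 2 ≤ X ^ θ →
      ∑ q ∈ Q s X, ((∫ α in (-(X ^ θ))..(X ^ θ), ‖LL s q (pt α)‖ ^ 2) + CP * (X ^ θ * X ^ ρ)) ^ (k - 1) ≤
        C * (X ^ θ * X ^ ρ) ^ (k - 1) * X * (X ^ ((1 - θ) / 2)) ^ (k - 2) := by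
  obtain ⟨CM, hCM, hMB⟩ := hMB ρ hρ
  obtain ⟨CV, hCV, hVB⟩ := hVB ρ hρ
  refine ⟨1 + (CV + CP) ^ (k - 2) * (CM + CP), by positivity, ?_⟩
  intro s X hs hX v2
  have hX0 : 0 < X := by linarith
  have hX1 : 1 ≤ X := by linarith
  obtain ⟨A, hA⟩ : ∃ A : ℝ, A = X ^ θ := ⟨_, rfl⟩
  have hAX : A ≤ X := by
    rw [hA]
    calc X ^ θ ≤ X ^ (1 : ℝ) := Real.rpow_le_rpow_of_exponent_le hX1 hθ1
      _ = X := Real.rpow_one X
  rw [← hA] at v2 ⊢
  have hA0 : 0 < A := by linarith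
  obtain ⟨B, hB⟩ : ∃ B : ℝ, B = A * X ^ ρ := ⟨_, rfl⟩
  obtain ⟨M, hM⟩ : ∃ M : ℝ, M = X ^ ((1 - θ) / 2) := ⟨_, rfl⟩
  rw [← hB, ← hM]
  have hB0 : 0 < B := by rw [hB]; positivity
  have hM1 : 1 ≤ M := by rw [hM]; exact Real.one_le_rpow hX1 (by linarith)
  have hM0 : 0 < M := by linarith
  obtain ⟨v, hv⟩ : ∃ v : ℕ → ℝ, v = fun q => ∫ α in (-A)..A, ‖LL s q (pt α)‖ ^ 2 := ⟨_, rfl⟩
  have hv0 : ∀ q, 0 ≤ v q := fun q => by
    rw [hv]
    exact intervalIntegral.integral_nonneg (by linarith) fun x _ => by positivity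
  have hvs : ∑ q ∈ Q s X, v q ≤ CM * B * X := by
    have h1 := hMB s X A hs v2 hAX
    rw [hv]
    refine h1.trans (le_of_eq ?_)
    rw [hB, Real.rpow_add hX0, Real.rpow_one]
    ring
  change ∑ q ∈ Q s X, ((∫ α in (-A)..A, ‖LL s q (pt α)‖ ^ 2) + CP * B) ^ (k - 1) ≤ _
  have ev : ∀ q, (∫ α in (-A)..A, ‖LL s q (pt α)‖ ^ 2) = v q := fun q => by rw [hv]
  simp only [ev]
  obtain ⟨D, hD⟩ : ∃ D : ℝ, D = (CV + CP) ^ (k - 2) * (CM + CP) := ⟨_, rfl⟩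
  have hD0 : 0 < D := by rw [hD]; positivity
  rw [← hD]
  rcases Nat.lt_or_ge k 2 with h2 | h2
  · have hk1 : k = 1 := by omega
    subst hk1
    simp only [Nat.sub_self, pow_zero, Finset.sum_const, nsmul_eq_mul, mul_one]
    have h3 : ((Q s X).card : ℝ) ≤ X := Q_card hX1
    have h4 : (1 : ℕ) - 2 = 0 := by norm_num
    rw [h4, pow_zero, mul_one]
    nlinarith
  · obtain ⟨n, rfl⟩ : ∃ n, k = n + 2 := ⟨k - 2, by omega⟩
    have e1 : n + 2 - 1 = n + 1 := by omega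
    have e2 : n + 2 - 2 = n := by omega
    rw [e1, e2]
    rw [e2] at hD
    have hb : ∀ q ∈ Q s X, (v q + CP * B) ^ n ≤ ((CV + CP) * (B * M)) ^ n := by
      intro q hq
      rcases Nat.eq_zero_or_pos n with rfl | hn
      · simp
      have hθ3 : 1 / 3 ≤ θ := by
        rcases hk3 with h | h
        · omega
        · exact h
      obtain ⟨hI, hqX⟩ := Q_is hq
      have hXA : X ≤ A ^ 3 := by
        rw [hA, ← Real.rpow_natCast, ← Real.rpow_mul hX0.le]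
        calc X = X ^ (1 : ℝ) := (Real.rpow_one X).symm
          _ ≤ X ^ (θ * ((3 : ℕ) : ℝ)) := by
              apply Real.rpow_le_rpow_of_exponent_le hX1
              push_cast
              linarith
      have h3 := hVB s q X A hI hqX.le v2 hAX hXA
      rw [ev] at h3
      have h4 : √(A * X) = A * M := by
        have h5 : A * X = (A * M) ^ 2 := by
          rw [mul_pow, hA, hM, ← Real.rpow_natCast (X ^ ((1 - θ) / 2)), ← Real.rpow_mul hX0.le,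
            ← Real.rpow_natCast (X ^ θ), ← Real.rpow_mul hX0.le, ← Real.rpow_add hX0]
          nth_rewrite 2 [← Real.rpow_one X]
          rw [← Real.rpow_add hX0]
          congr 1
          push_cast
          ring
        rw [h5, Real.sqrt_sq (by positivity)]
      have h6 : v q ≤ CV * (B * M) := by
        refine h3.trans (le_of_eq ?_)
        rw [h4, hB]
        ring
      have h7 : CP * B ≤ CP * (B * M) :=
        mul_le_mul_of_nonneg_left (le_mul_of_one_le_right hB0.le hM1) hCP.le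
      have h8 : 0 ≤ v q + CP * B := by
        have := hv0 q
        positivity
      exact pow_le_pow_left₀ h8 (by linarith) n
    calc ∑ q ∈ Q s X, (v q + CP * B) ^ (n + 1)
        = ∑ q ∈ Q s X, (v q + CP * B) ^ n * (v q + CP * B) :=
          Finset.sum_congr rfl fun q _ => pow_succ _ _
      _ ≤ ∑ q ∈ Q s X, ((CV + CP) * (B * M)) ^ n * (v q + CP * B) := by
          refine Finset.sum_le_sum fun q hq => mul_le_mul_of_nonneg_right (hb q hq) ?_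
          have := hv0 q
          positivity
      _ = ((CV + CP) * (B * M)) ^ n * (∑ q ∈ Q s X, v q + (Q s X).card * (CP * B)) := by
          rw [← Finset.mul_sum, Finset.sum_add_distrib, Finset.sum_const, nsmul_eq_mul]
      _ ≤ ((CV + CP) * (B * M)) ^ n * (CM * B * X + X * (CP * B)) := by
          refine mul_le_mul_of_nonneg_left ?_ (by positivity)
          exact add_le_add hvs (mul_le_mul_of_nonneg_right (Q_card hX1) (by positivity))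
      _ = D * B ^ (n + 1) * X * M ^ n := by
          rw [hD, mul_pow, mul_pow, pow_succ B]
          ring
      _ ≤ (1 + D) * B ^ (n + 1) * X * M ^ n := by
          gcongr
          linarith

/-- the first mean square: `L` replaced by `P_N`, `N` about `X^(2 sg θ)`, over the whole family -/
lemma F1 (hP : S_P1) (hO : S_OPN) (hc : S_CTS) (hMB : S_MB)
    (hVB : ∀ ε : ℝ, 0 < ε → ∃ C : ℝ, 0 < C ∧ ∀ (s : ℤ) (q : ℕ) (X A : ℝ), Is s q → (q : ℝ) ≤ X →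
      2 ≤ A → A ≤ X → X ≤ A ^ 3 → ∫ α in (-A)..A, ‖LL s q (pt α)‖ ^ 2 ≤ C * X ^ ε * √(A * X))
    (hk : 1 ≤ k) {θ g : ℝ} (hθ : 0 < θ) (hθ1 : θ ≤ 1) (hk3 : k ≤ 2 ∨ 1 / 3 ≤ θ) (hg : 0 < g)
    (hg1 : g + ((k - 2 : ℕ) : ℝ) * ((1 - θ) / 2) ≤ sg θ) :
    ∃ C X₀ : ℝ, 0 < C ∧ ∀ (s : ℤ) (X : ℝ) (N : ℕ), s = 1 ∨ s = -1 → X₀ ≤ X → X ^ (2 * sg θ) / 2 ≤ N →
      (N : ℝ) ≤ X ^ (2 * sg θ) → 1 ≤ N →
      ∫⁻ β, ENNReal.ofReal (‖∑ q ∈ Q s X,
        (∏ j, LL s q (pt (β j)) - ∏ j, PN s q N (β j))‖ ^ 2) ∂(mS k (X ^ θ)) ≤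
        ENNReal.ofReal (C * X ^ (k * θ + 2 - g / 2)) := by
  classical
  have hs0 := sg_pos hθ
  have hs1 := sg_le1 θ
  have hs2 := sg_le2 θ
  have hk0 : (0 : ℝ) < k := by exact_mod_cast hk
  obtain ⟨ρ, hρ⟩ : ∃ ρ : ℝ, ρ = g / (2 * k) := ⟨_, rfl⟩
  have hρ0 : 0 < ρ := by rw [hρ]; positivity
  obtain ⟨CP, hCP, hP⟩ := hP
  obtain ⟨CO, hCO, hKN⟩ := KN hO hθ hθ1 hρ0
  obtain ⟨CV, hCV, hVs⟩ := Vsum (k := k) hMB hVB hk hθ1 hρ0 hk3 hCP
  have ev1 := log_small 1 hθ hρ0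
  have ev2 : ∀ᶠ X : ℝ in atTop, 2 ≤ X ^ θ := (tendsto_rpow_atTop hθ).eventually_ge_atTop _
  obtain ⟨X₀, hX₀⟩ := eventually_atTop.1 ((ev1.and ev2).and (eventually_ge_atTop 2))
  refine ⟨4 ^ k * CO * CV, X₀, by positivity, ?_⟩
  intro s X N hs hX hN hNX hN1
  obtain ⟨⟨v1, v2⟩, v3⟩ := hX₀ X hX
  have hX0 : 0 < X := by linarith
  have hX1 : 1 ≤ X := by linarith
  have hlogA : Real.log (X ^ θ) ≤ X ^ ρ := by
    rw [Real.log_rpow hX0]
    simpa using v1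
  have hNA : (N : ℝ) ≤ X ^ θ := by
    refine hNX.trans ?_
    apply Real.rpow_le_rpow_of_exponent_le hX1
    linarith
  have hVs := hVs s X hs v3 v2
  have hKN := fun c => hKN (2 * sg θ) (mul_pos two_pos (sg_pos hθ)) le_rfl s X N c hs v3 v2 hN hN1
  obtain ⟨A, hA⟩ : ∃ A : ℝ, A = X ^ θ := ⟨_, rfl⟩
  rw [← hA] at v2 hlogA hNA hVs hKN ⊢
  have hA0 : 0 < A := by linarith
  obtain ⟨K0, hK0⟩ : ∃ K0 : ℝ, K0 = CO * (A * X ^ (1 + ρ - 2 * sg θ / 2)) := ⟨_, rfl⟩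
  have hK0' : 0 ≤ K0 := by rw [hK0]; positivity
  obtain ⟨V, hV⟩ : ∃ V : ℕ → ℝ, V = fun q => (∫ α in (-A)..A, ‖LL s q (pt α)‖ ^ 2) + CP * (A * X ^ ρ) :=
    ⟨_, rfl⟩
  have hi0 : ∀ q, 0 ≤ ∫ α in (-A)..A, ‖LL s q (pt α)‖ ^ 2 := fun q =>
    intervalIntegral.integral_nonneg (by linarith) fun x _ => by positivity
  have h1 := telW k (Q s X) (fun q α => LL s q (pt α)) (fun q => PN s q N) A K0 V hA0 hK0'
    (fun q _ => by
      rw [hV]
      have := hi0 q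
      positivity)
    (fun q hq => hc s q (Q_is hq).1) (fun q _ => PN_cont s q N)
    (fun c => by rw [hK0]; exact hKN c)
    (fun q _ => by
      rw [hV]
      have : 0 ≤ CP * (A * X ^ ρ) := by positivity
      simp only
      linarith)
    (fun q _ => by
      have h2 := (hP A N (fun n => vl s q n) v2 hNA (fun n => vl_le s q n)).2
      refine le_trans h2 ?_
      rw [hV]
      have h3 : CP * A * Real.log A ≤ CP * A * X ^ ρ := mul_le_mul_of_nonneg_left hlogA (by positivity)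
      have := hi0 q
      simp only
      linarith)
  refine h1.trans (ENNReal.ofReal_le_ofReal ?_)
  have h2 : ∑ q ∈ Q s X, V q ^ (k - 1) ≤
      CV * (A * X ^ ρ) ^ (k - 1) * X * (X ^ ((1 - θ) / 2)) ^ (k - 2) := by
    rw [hV]
    exact hVs
  have hAk : A ^ k = X ^ (k * θ) := by
    rw [hA, ← Real.rpow_natCast, ← Real.rpow_mul hX0.le]
    congr 1; ring
  have e1 : (X ^ ((1 - θ) / 2)) ^ (k - 2) = X ^ (((k - 2 : ℕ) : ℝ) * ((1 - θ) / 2)) := by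
    rw [← Real.rpow_natCast, ← Real.rpow_mul hX0.le]
    congr 1; ring
  have e2 : (X ^ ρ) ^ k = X ^ (g / 2) := by
    rw [← Real.rpow_natCast, ← Real.rpow_mul hX0.le]
    congr 1
    rw [hρ]
    field_simp
  have e3 : A * X ^ (1 + ρ - 2 * sg θ / 2) = A * X ^ ρ * X ^ (1 - sg θ) := by
    rw [mul_assoc, ← Real.rpow_add hX0]
    congr 2; ring
  have e4 : A * X ^ ρ * (A * X ^ ρ) ^ (k - 1) = X ^ (k * θ) * X ^ (g / 2) := by
    rw [← pow_succ', show k - 1 + 1 = k by omega, mul_pow, hAk, e2]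
  calc 4 ^ k * K0 * ∑ q ∈ Q s X, V q ^ (k - 1)
      ≤ 4 ^ k * K0 * (CV * (A * X ^ ρ) ^ (k - 1) * X * (X ^ ((1 - θ) / 2)) ^ (k - 2)) :=
        mul_le_mul_of_nonneg_left h2 (by positivity)
    _ = 4 ^ k * CO * CV * ((A * X ^ ρ * (A * X ^ ρ) ^ (k - 1)) * X ^ (1 - sg θ) * X ^ (1 : ℝ) *
          X ^ (((k - 2 : ℕ) : ℝ) * ((1 - θ) / 2))) := by
        rw [hK0, e3, e1, Real.rpow_one]
        ring
    _ = 4 ^ k * CO * CV * (X ^ (k * θ) * X ^ (g / 2) * X ^ (1 - sg θ) * X ^ (1 : ℝ) *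
          X ^ (((k - 2 : ℕ) : ℝ) * ((1 - θ) / 2))) := by rw [e4]
    _ ≤ 4 ^ k * CO * CV * X ^ (k * θ + 2 - g / 2) := by
        refine mul_le_mul_of_nonneg_left ?_ (by positivity)
        rw [← Real.rpow_add hX0, ← Real.rpow_add hX0, ← Real.rpow_add hX0, ← Real.rpow_add hX0]
        apply Real.rpow_le_rpow_of_exponent_le hX1
        linarith

/-- the second mean square: from `P_M`, `M` about `X^(2 sg θ)`, to `P_N`, `N` about `X^η` -/
lemma F2 (hP : S_P1) (hO : S_OPN) (hT : S_TEL) (hc : S_CTS) (hk : 1 ≤ k) {θ η : ℝ} (hθ : 0 < θ) (hθ1 : θ ≤ 1)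
    (hη : 0 < η) (hη1 : η ≤ 2 * sg θ) :
    ∃ C X₀ : ℝ, 0 < C ∧ ∀ (s : ℤ) (X : ℝ) (M N : ℕ), s = 1 ∨ s = -1 → X₀ ≤ X → X ^ η / 2 ≤ N →
      (N : ℝ) ≤ X ^ η → 1 ≤ N → X ^ (2 * sg θ) / 2 ≤ M → (M : ℝ) ≤ X ^ (2 * sg θ) → 1 ≤ M →
      ∫⁻ β, ENNReal.ofReal (‖∑ q ∈ Q s X,
        (∏ j, PN s q M (β j) - ∏ j, PN s q N (β j))‖ ^ 2) ∂(mS k (X ^ θ)) ≤
        ENNReal.ofReal (C * X ^ (k * θ + 2 - η / 4)) := by
  classical
  have hs0 := sg_pos hθ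
  have hs1 := sg_le1 θ
  have hs2 := sg_le2 θ
  have hk0 : (0 : ℝ) < k := by exact_mod_cast hk
  obtain ⟨ρ, hρ⟩ : ∃ ρ : ℝ, ρ = η / (4 * k) := ⟨_, rfl⟩
  have hρ0 : 0 < ρ := by rw [hρ]; positivity
  obtain ⟨CP, hCP, hP⟩ := hP
  obtain ⟨CO, hCO, hKN⟩ := KN hO hθ hθ1 hρ0
  have ev1 := log_small 1 hθ hρ0
  have ev2 : ∀ᶠ X : ℝ in atTop, 2 ≤ X ^ θ := (tendsto_rpow_atTop hθ).eventually_ge_atTop _
  obtain ⟨X₀, hX₀⟩ := eventually_atTop.1 ((ev1.and ev2).and (eventually_ge_atTop 2))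
  refine ⟨4 ^ k * (4 * CO) * CP ^ (k - 1), X₀, by positivity, ?_⟩
  intro s X M N hs hX hN hNX hN1 hM hMX hM1
  obtain ⟨⟨v1, v2⟩, v3⟩ := hX₀ X hX
  have hX0 : 0 < X := by linarith
  have hX1 : 1 ≤ X := by linarith
  have hlogA : Real.log (X ^ θ) ≤ X ^ ρ := by
    rw [Real.log_rpow hX0]
    simpa using v1
  have hNA : (N : ℝ) ≤ X ^ θ := by
    refine hNX.trans ?_
    apply Real.rpow_le_rpow_of_exponent_le hX1
    linarith
  have hMA : (M : ℝ) ≤ X ^ θ := by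
    refine hMX.trans ?_
    apply Real.rpow_le_rpow_of_exponent_le hX1
    linarith
  have hK1 := fun c => hKN (2 * sg θ) (mul_pos two_pos (sg_pos hθ)) le_rfl s X M c hs v3 v2 hM hM1
  have hK2 := fun c => hKN η hη hη1 s X N c hs v3 v2 hN hN1
  obtain ⟨A, hA⟩ : ∃ A : ℝ, A = X ^ θ := ⟨_, rfl⟩
  rw [← hA] at v2 hlogA hNA hMA hK1 hK2 ⊢
  have hA0 : 0 < A := by linarith
  obtain ⟨B, hB⟩ : ∃ B : ℝ, B = A * X ^ (1 + ρ - η / 2) := ⟨_, rfl⟩
  have hB0 : 0 < B := by rw [hB]; positivity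
  have hB1 : A * X ^ (1 + ρ - 2 * sg θ / 2) ≤ B := by
    rw [hB]
    refine mul_le_mul_of_nonneg_left ?_ hA0.le
    apply Real.rpow_le_rpow_of_exponent_le hX1
    linarith
  rw [← hB] at hK2
  have hAA : -A ≤ A := by linarith
  have h1 := hT k (Q s X) (fun q => PN s q M) (fun q => PN s q N) A (4 * CO * B) (CP * (A * X ^ ρ)) hA0
    (by positivity) (by positivity) (fun q _ => PN_cont s q M) (fun q _ => PN_cont s q N)
    (fun c => by
      obtain ⟨G1, hG1⟩ : ∃ G : ℝ → ℂ, G = fun α => ∑ q ∈ Q s X, c q * (LL s q (pt α) - PN s q M α) :=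
        ⟨_, rfl⟩
      obtain ⟨G2, hG2⟩ : ∃ G : ℝ → ℂ, G = fun α => ∑ q ∈ Q s X, c q * (LL s q (pt α) - PN s q N α) :=
        ⟨_, rfl⟩
      have c1 : Continuous G1 := by
        rw [hG1]
        exact continuous_finset_sum _ fun q hq => continuous_const.mul
          ((hc s q (Q_is hq).1).sub (PN_cont s q M))
      have c2 : Continuous G2 := by
        rw [hG2]
        exact continuous_finset_sum _ fun q hq => continuous_const.mul
          ((hc s q (Q_is hq).1).sub (PN_cont s q N))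
      have e1 : ∀ α : ℝ, ∑ q ∈ Q s X, c q * (PN s q M α - PN s q N α) = G2 α - G1 α := by
        intro α
        rw [hG1, hG2]
        simp only
        rw [← Finset.sum_sub_distrib]
        exact Finset.sum_congr rfl fun q _ => by ring
      have g1 := hK1 c
      have g2 := hK2 c
      have hS : 0 ≤ ∑ q ∈ Q s X, ‖c q‖ ^ 2 := Finset.sum_nonneg fun _ _ => by positivity
      have g1' : ∫ α in (-A)..A, ‖G1 α‖ ^ 2 ≤ CO * B * ∑ q ∈ Q s X, ‖c q‖ ^ 2 := by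
        rw [hG1]
        refine g1.trans ?_
        refine mul_le_mul_of_nonneg_right (mul_le_mul_of_nonneg_left hB1 hCO.le) hS
      have g2' : ∫ α in (-A)..A, ‖G2 α‖ ^ 2 ≤ CO * B * ∑ q ∈ Q s X, ‖c q‖ ^ 2 := by
        rw [hG2]
        exact g2
      simp only [e1]
      have g3 : ∫ α in (-A)..A, ‖G2 α - G1 α‖ ^ 2 ≤
          ∫ α in (-A)..A, (2 * ‖G2 α‖ ^ 2 + 2 * ‖G1 α‖ ^ 2) := by
        refine intervalIntegral.integral_mono_on hAA ((c2.sub c1).norm.pow 2 |>.intervalIntegrable _ _)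
          (Continuous.intervalIntegrable (by fun_prop) _ _) fun α _ => ?_
        have h4 := norm_sub_le (G2 α) (G1 α)
        have h5 : ‖G2 α - G1 α‖ ^ 2 ≤ (‖G2 α‖ + ‖G1 α‖) ^ 2 := by gcongr
        nlinarith [sq_nonneg (‖G2 α‖ - ‖G1 α‖)]
      have g4 : ∫ α in (-A)..A, (2 * ‖G2 α‖ ^ 2 + 2 * ‖G1 α‖ ^ 2) =
          2 * (∫ α in (-A)..A, ‖G2 α‖ ^ 2) + 2 * ∫ α in (-A)..A, ‖G1 α‖ ^ 2 := by
        rw [intervalIntegral.integral_add (Continuous.intervalIntegrable (by fun_prop) _ _)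
          (Continuous.intervalIntegrable (by fun_prop) _ _), intervalIntegral.integral_const_mul,
          intervalIntegral.integral_const_mul]
      calc ∫ α in (-A)..A, ‖G2 α - G1 α‖ ^ 2 ≤ _ := g3
        _ = _ := g4
        _ ≤ 4 * CO * B * ∑ q ∈ Q s X, ‖c q‖ ^ 2 := by linarith)
    (fun q _ => by
      have h2 := (hP A M (fun n => vl s q n) v2 hMA (fun n => vl_le s q n)).2
      refine le_trans h2 ?_
      have h3 : CP * A * Real.log A ≤ CP * A * X ^ ρ := mul_le_mul_of_nonneg_left hlogA (by positivity)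
      linarith)
    (fun q _ => by
      have h2 := (hP A N (fun n => vl s q n) v2 hNA (fun n => vl_le s q n)).2
      refine le_trans h2 ?_
      have h3 : CP * A * Real.log A ≤ CP * A * X ^ ρ := mul_le_mul_of_nonneg_left hlogA (by positivity)
      linarith)
  refine h1.trans (ENNReal.ofReal_le_ofReal ?_)
  have hAk : A ^ k = X ^ (k * θ) := by
    rw [hA, ← Real.rpow_natCast, ← Real.rpow_mul hX0.le]
    congr 1; ring
  have e2 : (X ^ ρ) ^ k = X ^ (η / 4) := by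
    rw [← Real.rpow_natCast, ← Real.rpow_mul hX0.le]
    congr 1
    rw [hρ]
    field_simp
  have e3 : B = A * X ^ ρ * X ^ (1 - η / 2) := by
    rw [hB, mul_assoc, ← Real.rpow_add hX0]
    congr 2; ring
  have e4 : A * X ^ ρ * (A * X ^ ρ) ^ (k - 1) = X ^ (k * θ) * X ^ (η / 4) := by
    rw [← pow_succ', show k - 1 + 1 = k by omega, mul_pow, hAk, e2]
  calc 4 ^ k * (4 * CO * B) * (CP * (A * X ^ ρ)) ^ (k - 1) * ((Q s X).card : ℝ)
      ≤ 4 ^ k * (4 * CO * B) * (CP * (A * X ^ ρ)) ^ (k - 1) * X :=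
        mul_le_mul_of_nonneg_left (Q_card hX1) (by positivity)
    _ = 4 ^ k * (4 * CO) * CP ^ (k - 1) * ((A * X ^ ρ * (A * X ^ ρ) ^ (k - 1)) * X ^ (1 - η / 2) *
          X ^ (1 : ℝ)) := by
        rw [e3, mul_pow, Real.rpow_one]
        ring
    _ = 4 ^ k * (4 * CO) * CP ^ (k - 1) * (X ^ (k * θ) * X ^ (η / 4) * X ^ (1 - η / 2) * X ^ (1 : ℝ)) := by
        rw [e4]
    _ ≤ 4 ^ k * (4 * CO) * CP ^ (k - 1) * X ^ (k * θ + 2 - η / 4) := by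
        refine mul_le_mul_of_nonneg_left ?_ (by positivity)
        rw [← Real.rpow_add hX0, ← Real.rpow_add hX0, ← Real.rpow_add hX0]
        apply Real.rpow_le_rpow_of_exponent_le hX1
        linarith

/-- the third theorem: no discriminant removed -/
theorem t_MAINC (hMB : S_MB)
    (hVB : ∀ ε : ℝ, 0 < ε → ∃ C : ℝ, 0 < C ∧ ∀ (s : ℤ) (q : ℕ) (X A : ℝ), Is s q → (q : ℝ) ≤ X →
      2 ≤ A → A ≤ X → X ≤ A ^ 3 → ∫ α in (-A)..A, ‖LL s q (pt α)‖ ^ 2 ≤ C * X ^ ε * √(A * X))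
    (hP : S_P1) (hO : S_OPN) (hT : S_TEL) (hc : S_CTS) (hD : S_DIAG)
    (hC : S_COEF) (hZ : S_ZR) (hE : S_EUL) (hN : S_NS)
    (k : ℕ) (s : ℤ) (θ : ℝ) (hk : 1 ≤ k) (hs : s = 1 ∨ s = -1) (hθ : 0 < θ) (hθ1 : θ ≤ 1)
    (hk3 : k ≤ 2 ∨ 1 / 3 ≤ θ) (hkθ : ((k - 2 : ℕ) : ℝ) * ((1 - θ) / 2) < sg θ) :
    ∃ δ X₀ : ℝ, 0 < δ ∧ ∀ X : ℝ, X₀ ≤ X →
      mS k (X ^ θ) {β | X ^ (1 - δ) < ‖(∑ q ∈ Q s X, ∏ j, LL s q (pt (β j))) - ((c0 * X : ℝ) : ℂ) * MT (im β)‖} ≤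
        ENNReal.ofReal (X ^ (k * θ - δ)) := by
  classical
  obtain ⟨CD, hCD, hD⟩ := hD k
  obtain ⟨CN, hCN, hN⟩ := hN k
  obtain ⟨m₀, hE3⟩ := E3 hC hZ hE hk le_rfl
  set m : ℕ := m₀ + 8 * k + 1 with hm
  have hm1 : 1 ≤ m := by omega
  have hm0 : (0 : ℝ) < m := by exact_mod_cast hm1
  obtain ⟨C3, X3, hC3, hE3⟩ := hE3 m (by omega) hm1
  have hm9 : (9 : ℝ) ≤ m := by
    have : 9 ≤ m := by omega
    exact_mod_cast this
  set η : ℝ := θ * (1 / m) with hη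
  have hη0 : 0 < η := by positivity
  have hηθ : η ≤ θ / 4 := by
    rw [hη, mul_one_div]
    exact div_le_div_of_nonneg_left hθ.le (by norm_num) (by linarith)
  have hk0 : (0 : ℝ) < k := by exact_mod_cast hk
  have hk1 : (1 : ℝ) ≤ k := by exact_mod_cast hk
  have hkη : k * η ≤ 1 / 8 := by
    have h1 : η ≤ 1 / m := by
      rw [hη]
      have : 0 ≤ (1 / m : ℝ) := by positivity
      nlinarith
    have h2 : (k : ℝ) * (1 / m) ≤ 1 / 8 := by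
      rw [mul_one_div, div_le_div_iff₀ hm0 (by norm_num)]
      have : k * 8 ≤ 1 * m := by omega
      exact_mod_cast this
    exact (mul_le_mul_of_nonneg_left h1 hk0.le).trans h2
  obtain ⟨g, hg⟩ : ∃ g : ℝ, g = sg θ - ((k - 2 : ℕ) : ℝ) * ((1 - θ) / 2) := ⟨_, rfl⟩
  have hg0 : 0 < g := by rw [hg]; linarith
  obtain ⟨C1, X1, hC1, hE1⟩ := F1 (k := k) hP hO hc hMB hVB hk hθ hθ1 hk3 hg0 (by rw [hg]; linarith)
  obtain ⟨C2, X2, hC2, hE2⟩ := F2 (k := k) hP hO hT hc hk hθ hθ1 hη0 (by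
    have h1 : η ≤ 1 / 8 := le_trans (by nlinarith) hkη
    unfold sg
    rcases min_choice (θ / 3) (1 / 5 : ℝ) with h | h <;> rw [h] <;> linarith)
  obtain ⟨δ, hδ⟩ : ∃ δ : ℝ, δ = min (g / 16) (η / 128) := ⟨_, rfl⟩
  have hδ0 : 0 < δ := by rw [hδ]; positivity
  have hδg : δ ≤ g / 16 := by rw [hδ]; exact min_le_left _ _
  have hδη : δ ≤ η / 128 := by rw [hδ]; exact min_le_right _ _
  have hc0 : 0 < c0 := by unfold c0; positivity
  have hη18 : η ≤ 1 / 8 := le_trans (by nlinarith) hkη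
  -- large X
  have ev1 : ∀ᶠ X : ℝ in atTop, 4 * CD ≤ X ^ (3 / 8 - δ : ℝ) :=
    (tendsto_rpow_atTop (by linarith)).eventually_ge_atTop _
  have ev2 : ∀ᶠ X : ℝ in atTop, CN + 16 * C1 + 16 * C2 + 16 * c0 ^ 2 * C3 ≤ X ^ δ :=
    (tendsto_rpow_atTop hδ0).eventually_ge_atTop _
  have ev4 : ∀ᶠ X : ℝ in atTop, max X3 2 ≤ X ^ θ :=
    (tendsto_rpow_atTop hθ).eventually_ge_atTop _
  obtain ⟨X₀, hX₀⟩ := eventually_atTop.1 ((((ev1.and ev2).and ev4).and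
    ((eventually_ge_atTop X1).and (eventually_ge_atTop X2))).and (eventually_ge_atTop 2))
  refine ⟨δ, X₀, hδ0, ?_⟩
  intro X hX
  obtain ⟨⟨⟨⟨v1, v2⟩, v4⟩, v5, v6⟩, v7⟩ := hX₀ X hX
  have hX0 : 0 < X := by linarith
  have hX1 : 1 ≤ X := by linarith
  set A : ℝ := X ^ θ with hA
  have hA2 : 2 ≤ A := (le_max_right _ _).trans v4
  have hA3 : X3 ≤ A := (le_max_left _ _).trans v4
  have hA1 : 1 ≤ A := by linarith
  have hAη : A ^ (1 / m : ℝ) = X ^ η := by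
    rw [hA, ← Real.rpow_mul hX0.le]
  set N : ℕ := ⌊X ^ η⌋₊ with hNd
  obtain ⟨f1, f2, f3⟩ := floor_half (Real.one_le_rpow hX1 hη0.le : 1 ≤ X ^ η)
  rw [← hNd] at f1 f2 f3
  set M : ℕ := ⌊X ^ (2 * sg θ)⌋₊ with hMd
  obtain ⟨r1, r2, r3⟩ := floor_half (Real.one_le_rpow hX1 (mul_nonneg two_pos.le (sg_pos hθ).le) : 1 ≤ X ^ (2 * sg θ))
  rw [← hMd] at r1 r2 r3
  have hN0 : (0 : ℝ) < N := by exact_mod_cast f3
  have g1 := hE1 s X M hs v5 r1 r2 r3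
  have g4 := hE2 s X M N hs v6 f1 f2 f3 r1 r2 r3
  have g3 := hE3 A N hA3 hA2 (by rw [hAη]; exact f1) (by rw [hAη]; exact f2) f3
  rw [Real.rpow_one] at g3
  -- the diagonal error
  have g2 : ∀ β : Fin k → ℝ, ‖(∑ q ∈ Q s X, ∏ j, PN s q N (β j)) - ((c0 * X : ℝ) : ℂ) * SN k N β‖ ≤
      X ^ (1 - δ) / 4 := by
    intro β
    refine (hD s X N β hs hX1 f3).trans ?_
    have h1 : (N : ℝ) ^ k ≤ X ^ (1 / 8 : ℝ) := by
      calc (N : ℝ) ^ k ≤ (X ^ η) ^ k := pow_le_pow_left₀ hN0.le f2 _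
        _ = X ^ (k * η) := by rw [← Real.rpow_natCast, ← Real.rpow_mul hX0.le]; congr 1; ring
        _ ≤ X ^ (1 / 8 : ℝ) := Real.rpow_le_rpow_of_exponent_le hX1 hkη
    have h2 : √X = X ^ (1 / 2 : ℝ) := Real.sqrt_eq_rpow X
    have h3 : X ^ (1 - δ) = X ^ (3 / 8 - δ : ℝ) * (X ^ (1 / 2 : ℝ) * X ^ (1 / 8 : ℝ)) := by
      rw [← Real.rpow_add hX0, ← Real.rpow_add hX0]; congr 1; ring
    rw [h2, h3, le_div_iff₀ (by norm_num)]
    calc CD * X ^ (1 / 2 : ℝ) * (N : ℝ) ^ k * 4 ≤ CD * X ^ (1 / 2 : ℝ) * X ^ (1 / 8 : ℝ) * 4 := by gcongr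
      _ = 4 * CD * (X ^ (1 / 2 : ℝ) * X ^ (1 / 8 : ℝ)) := by ring
      _ ≤ X ^ (3 / 8 - δ : ℝ) * (X ^ (1 / 2 : ℝ) * X ^ (1 / 8 : ℝ)) := by gcongr
  -- the sets
  set D1 : (Fin k → ℝ) → ℂ := fun β => ∑ q ∈ Q s X, (∏ j, LL s q (pt (β j)) - ∏ j, PN s q M (β j)) with hD1
  set D2 : (Fin k → ℝ) → ℂ := fun β => ∑ q ∈ Q s X, (∏ j, PN s q M (β j) - ∏ j, PN s q N (β j)) with hD2
  set D3 : (Fin k → ℝ) → ℂ := fun β => SN k N β - MT (im β) with hD3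
  have c1 : Continuous D1 := by
    refine continuous_finset_sum _ fun q hq => Continuous.sub ?_ ?_
    · exact continuous_finset_prod _ fun j _ =>
        (hc s q (Q_is hq).1).comp (continuous_apply j)
    · exact continuous_finset_prod _ fun j _ => (PN_cont s q M).comp (continuous_apply j)
  have c2 : Continuous D2 := by
    refine continuous_finset_sum _ fun q hq => Continuous.sub ?_ ?_
    · exact continuous_finset_prod _ fun j _ => (PN_cont s q M).comp (continuous_apply j)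
    · exact continuous_finset_prod _ fun j _ => (PN_cont s q N).comp (continuous_apply j)
  have hXδ : 0 < X ^ (1 - δ) / 4 := by positivity
  have hlam3 : 0 < X ^ (-δ) / (4 * c0) := by positivity
  have hsub : {β : Fin k → ℝ | X ^ (1 - δ) <
      ‖(∑ q ∈ Q s X, ∏ j, LL s q (pt (β j))) - ((c0 * X : ℝ) : ℂ) * MT (im β)‖} ⊆
      (Gd k A)ᶜ ∪ ({β | X ^ (1 - δ) / 4 < ‖D1 β‖} ∪ ({β | X ^ (1 - δ) / 4 < ‖D2 β‖} ∪
        ({β | X ^ (-δ) / (4 * c0) < ‖D3 β‖} ∩ Gd k A))) := by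
    intro β hβ
    by_contra hcon
    simp only [mem_union, mem_compl_iff, mem_inter_iff, not_or, not_and, not_not] at hcon
    obtain ⟨h1, h2, h2b, h3⟩ := hcon
    have h2' : ‖D1 β‖ ≤ X ^ (1 - δ) / 4 := not_lt.1 h2
    have h2b' : ‖D2 β‖ ≤ X ^ (1 - δ) / 4 := not_lt.1 h2b
    have h3' : ‖D3 β‖ ≤ X ^ (-δ) / (4 * c0) := by
      by_contra hh
      exact (h3 (not_le.1 hh)) h1
    have e : (∑ q ∈ Q s X, ∏ j, LL s q (pt (β j))) - ((c0 * X : ℝ) : ℂ) * MT (im β) =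
        D1 β + ((∑ q ∈ Q s X, ∏ j, PN s q N (β j)) - ((c0 * X : ℝ) : ℂ) * SN k N β) +
          ((c0 * X : ℝ) : ℂ) * D3 β + D2 β := by
      simp only [hD1, hD2, hD3, Finset.sum_sub_distrib]
      ring
    have h4 : ‖((c0 * X : ℝ) : ℂ) * D3 β‖ ≤ X ^ (1 - δ) / 4 := by
      rw [norm_mul, Complex.norm_real, Real.norm_of_nonneg (by positivity)]
      calc c0 * X * ‖D3 β‖ ≤ c0 * X * (X ^ (-δ) / (4 * c0)) := by gcongr
        _ = X ^ (-δ) * X / 4 := by field_simp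
        _ = X ^ (1 - δ) / 4 := by
            nth_rewrite 2 [← Real.rpow_one X]
            rw [← Real.rpow_add hX0]; congr 2; ring
    have h5 : ‖(∑ q ∈ Q s X, ∏ j, LL s q (pt (β j))) - ((c0 * X : ℝ) : ℂ) * MT (im β)‖ ≤ X ^ (1 - δ) := by
      rw [e]
      refine (norm_add_le _ _).trans ?_
      have k1 := norm_add_le (D1 β + ((∑ q ∈ Q s X, ∏ j, PN s q N (β j)) - ((c0 * X : ℝ) : ℂ) * SN k N β))
        (((c0 * X : ℝ) : ℂ) * D3 β)
      have k2 := norm_add_le (D1 β) ((∑ q ∈ Q s X, ∏ j, PN s q N (β j)) - ((c0 * X : ℝ) : ℂ) * SN k N β)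
      linarith [g2 β]
    exact absurd h5 (not_le.2 hβ)
  refine (measure_mono hsub).trans ?_
  refine (measure_union_le _ _).trans ((add_le_add_right ((measure_union_le _ _).trans
    (add_le_add_right (measure_union_le _ _) _)) _).trans ?_)
  have m1 : mS k A (Gd k A)ᶜ ≤ ENNReal.ofReal (CN * X ^ (k * θ - 2 * δ)) := by
    refine (hN A hA1).trans (ENNReal.ofReal_le_ofReal ?_)
    apply mul_le_mul_of_nonneg_left _ hCN.le
    rw [hA, ← Real.rpow_mul hX0.le]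
    apply Real.rpow_le_rpow_of_exponent_le hX1
    have : 4 * δ ≤ θ := by linarith
    nlinarith
  have esq : (X ^ (1 - δ) / 4) ^ 2 = X ^ (2 - 2 * δ) / 16 := by
    rw [div_pow, ← Real.rpow_natCast, ← Real.rpow_mul hX0.le]
    norm_num
    congr 1; ring
  have hXd2 : 0 < X ^ (2 - 2 * δ) := by positivity
  have m2 : mS k A {β | X ^ (1 - δ) / 4 < ‖D1 β‖} ≤ ENNReal.ofReal (16 * C1 * X ^ (k * θ - 2 * δ)) := by
    refine (cheb (g := fun β => ‖D1 β‖) c1.norm.aemeasurable hXδ g1).trans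
      (ENNReal.ofReal_le_ofReal ?_)
    rw [esq]
    have e2 : X ^ (k * θ + 2 - g / 2) ≤ X ^ (k * θ - 2 * δ) * X ^ (2 - 2 * δ) := by
      rw [← Real.rpow_add hX0]
      apply Real.rpow_le_rpow_of_exponent_le hX1
      linarith
    rw [div_le_iff₀ (by positivity)]
    calc C1 * X ^ (k * θ + 2 - g / 2) ≤ C1 * (X ^ (k * θ - 2 * δ) * X ^ (2 - 2 * δ)) := by gcongr
      _ = 16 * C1 * X ^ (k * θ - 2 * δ) * (X ^ (2 - 2 * δ) / 16) := by ring
  have m4 : mS k A {β | X ^ (1 - δ) / 4 < ‖D2 β‖} ≤ ENNReal.ofReal (16 * C2 * X ^ (k * θ - 2 * δ)) := by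
    refine (cheb (g := fun β => ‖D2 β‖) c2.norm.aemeasurable hXδ g4).trans
      (ENNReal.ofReal_le_ofReal ?_)
    rw [esq]
    have e2 : X ^ (k * θ + 2 - η / 4) ≤ X ^ (k * θ - 2 * δ) * X ^ (2 - 2 * δ) := by
      rw [← Real.rpow_add hX0]
      apply Real.rpow_le_rpow_of_exponent_le hX1
      linarith
    rw [div_le_iff₀ (by positivity)]
    calc C2 * X ^ (k * θ + 2 - η / 4) ≤ C2 * (X ^ (k * θ - 2 * δ) * X ^ (2 - 2 * δ)) := by gcongr
      _ = 16 * C2 * X ^ (k * θ - 2 * δ) * (X ^ (2 - 2 * δ) / 16) := by ring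
  have m3 : mS k A ({β | X ^ (-δ) / (4 * c0) < ‖D3 β‖} ∩ Gd k A) ≤
      ENNReal.ofReal (16 * c0 ^ 2 * C3 * X ^ (k * θ - 2 * δ)) := by
    rw [← Measure.restrict_apply' (Gd_meas k A)]
    have hmD : Measurable D3 := (meas_SN N).sub (meas_MT hE)
    refine (cheb (g := fun β => ‖D3 β‖) hmD.norm.aemeasurable hlam3 g3).trans
      (ENNReal.ofReal_le_ofReal ?_)
    have e1 : (X ^ (-δ) / (4 * c0)) ^ 2 = X ^ (-(2 * δ)) / (16 * c0 ^ 2) := by
      rw [div_pow, ← Real.rpow_natCast, ← Real.rpow_mul hX0.le]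
      norm_num
      rw [mul_pow]; norm_num
      congr 2; ring
    rw [e1]
    have e2 : A ^ ((k : ℝ) * 1 - 1 / (4 * m)) ≤ X ^ (k * θ - 2 * δ) * X ^ (-(2 * δ)) := by
      rw [← Real.rpow_add hX0, hA, ← Real.rpow_mul hX0.le]
      apply Real.rpow_le_rpow_of_exponent_le hX1
      have h1 : θ * ((k : ℝ) * 1 - 1 / (4 * m)) = k * θ - η / 4 := by rw [hη]; field_simp
      rw [h1]
      linarith
    have e3 : 0 < X ^ (-(2 * δ)) := by positivity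
    rw [div_le_iff₀ (by positivity)]
    calc C3 * A ^ ((k : ℝ) * 1 - 1 / (4 * m)) ≤ C3 * (X ^ (k * θ - 2 * δ) * X ^ (-(2 * δ))) := by gcongr
      _ = 16 * c0 ^ 2 * C3 * X ^ (k * θ - 2 * δ) * (X ^ (-(2 * δ)) / (16 * c0 ^ 2)) := by
          field_simp
  refine (add_le_add m1 (add_le_add m2 (add_le_add m4 m3))).trans ?_
  rw [← ENNReal.ofReal_add (by positivity) (by positivity), ← ENNReal.ofReal_add (by positivity) (by positivity),
    ← ENNReal.ofReal_add (by positivity) (by positivity)]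
  apply ENNReal.ofReal_le_ofReal
  calc CN * X ^ (k * θ - 2 * δ) + (16 * C1 * X ^ (k * θ - 2 * δ) + (16 * C2 * X ^ (k * θ - 2 * δ) +
        16 * c0 ^ 2 * C3 * X ^ (k * θ - 2 * δ)))
      = (CN + 16 * C1 + 16 * C2 + 16 * c0 ^ 2 * C3) * X ^ (k * θ - 2 * δ) := by ring
    _ ≤ X ^ δ * X ^ (k * θ - 2 * δ) := by gcongr
    _ = X ^ (k * θ - δ) := by rw [← Real.rpow_add hX0]; congr 1; ring

/-- the theorem: no discriminant removed, `θ > 0` for `k ≤ 2` and `θ > 1 - 2/(5(k - 2))` for `k ≥ 3` -/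
theorem all_mainC (k : ℕ) (s : ℤ) (θ : ℝ) (hk : 1 ≤ k) (hs : s = 1 ∨ s = -1) (hθ : 0 < θ)
    (hkθ : k ≤ 2 ∨ 1 - 2 / (5 * ((k : ℝ) - 2)) < θ) :
    ∃ δ X₀ : ℝ, 0 < δ ∧ ∀ X : ℝ, X₀ ≤ X →
      mS k (X ^ θ) {β | X ^ (1 - δ) < ‖(∑ q ∈ Q s X, ∏ j, LL s q (pt (β j))) - ((c0 * X : ℝ) : ℂ) * MT (im β)‖} ≤
        ENNReal.ofReal (X ^ (k * θ - δ)) := by
  rcases le_or_gt θ 1 with hθ1 | hθ1
  swap
  · exact all_main k s θ hk hs hθ1
  have hU := t_UNI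
  have hA := t_AVG hU
  have hD := t_DIAG hA
  have hG := t_GK hU
  have hP1 := t_P1
  have hP2 := t_P2 hG
  have hM := t_MVG
  have hB := t_BLK hM
  have hL := t_LSB
  have hO := t_ONE
  have hPV := t_PVI
  have hHB := t_HBG
  have hWQ := t_WQ
  have hMID := t_MID hB hHB hWQ
  have hBP := t_BIGP hB hL hPV
  have hB1 := t_BIG1P hB hO hPV
  have hAF := t_AFS
  have hC := t_CTS
  have hMB := t_MB hHB hB1 hAF hC
  have hOP : S_OPN := opN hP2 hMID hBP hAF hC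
  have hTE := t_TEL
  have hE := t_EUL
  have hZR := t_ZR t_ZET hE
  have hFL := t_FL
  have hCO := t_COEF hFL
  refine t_MAINC hMB (vb hP1 hB hO hPV hAF hC) hP1 hOP hTE hC hD hCO hZR hE t_NS k s θ hk hs hθ hθ1 ?_ ?_
  · rcases le_or_gt k 2 with h | h
    · exact Or.inl h
    · right
      have h3 : (3 : ℝ) ≤ k := by exact_mod_cast h
      rcases hkθ with h' | h'
      · omega
      · have h4 : (0 : ℝ) < 5 * ((k : ℝ) - 2) := by linarith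
        have h5 : 2 / (5 * ((k : ℝ) - 2)) ≤ 2 / 5 := by
          apply div_le_div_of_nonneg_left (by norm_num) (by norm_num) (by linarith)
        linarith
  · rcases le_or_gt k 2 with h | h
    · have : k - 2 = 0 := by omega
      rw [this]
      simp only [Nat.cast_zero, zero_mul]
      exact sg_pos hθ
    · have h3 : (3 : ℝ) ≤ k := by exact_mod_cast h
      rcases hkθ with h' | h'
      · omega
      · have h4 : (0 : ℝ) < 5 * ((k : ℝ) - 2) := by linarith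
        have h5 : ((k - 2 : ℕ) : ℝ) = k - 2 := by
          rw [Nat.cast_sub (by omega)]
          norm_num
        have h7 : 2 / (5 * ((k : ℝ) - 2)) ≤ 2 / 5 := by
          apply div_le_div_of_nonneg_left (by norm_num) (by norm_num) (by linarith)
        have h8 : sg θ = 1 / 5 := by
          unfold sg
          exact min_eq_right (by linarith)
        rw [h5, h8]
        have h6 : 1 - θ < 2 / (5 * ((k : ℝ) - 2)) := by linarith
        rw [lt_div_iff₀ h4] at h6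
        nlinarith

end

end Run7.h819.QM
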